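import Pool.Agent.H413.RV.Loc
import Pool.Graph.R_pool_sql_team_seeded_2aa45f1a.Q299.RM.Pt

/-!
# Finitely many valuations with separated centres
-/

set_option autoImplicit false

namespace Pool.Agent.H413.RV

open Pool.Agent.W418.LU2 Pool.Agent.TH188.QS Pool.Agent.TH188.ARC Pool.Agent.H176.DT
  Pool.Agent.H918R2.Quad Pointwise
open Pool.Agent.Q299.RM (Im tr_mem)

section fam

variable {O F : Type} [CommRing O] [Field F] [Algebra O F]

/-- Finitely many valuations whose centres can be separated. -/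
theorem family [IsDomain O] (hOF : Function.Injective (algebraMap O F)) {M₀ : Submodule O F}
    (hM₀ : M₀.FG) (hne : ∃ g ∈ M₀, g ≠ 0) {ι : Type} [Finite ι] (V : ι → ValuationSubring F)
    (p : ι → O) (hp0 : ∀ t, p t ≠ 0) (hOV : ∀ t o, algebraMap O F o ∈ V t)
    (Φ : ι → Subring F → Prop)
    (hsep : ∀ (D : ℕ) (M : Submodule O F), Cm M₀ D M → ∀ t t', t ≠ t' →
      ∃ N, Bl M N ∧ Sep (V t) (algebraMap O F (p t)) (V t') (N * M))
    (hst : ∀ (t : ι) (D : ℕ) (M : Submodule O F), Cm M₀ D M → ∀ g, Gen (V t) M g →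
      HasSt (Φ t) (V t) (algebraMap O F (p t)) (chart O M g).toSubring) :
    ∃ (D : ℕ) (M : Submodule O F), Cm M₀ D M ∧ ∀ t, Has (Φ t) (V t) M := by
  classical
  have := Fintype.ofFinite ι
  -- the separation
  have key : ∀ T : Finset (ι × ι), (∀ q ∈ T, q.1 ≠ q.2) → ∃ (D : ℕ) (M : Submodule O F),
      Cm M₀ D M ∧ ∀ q ∈ T, Sep (V q.1) (algebraMap O F (p q.1)) (V q.2) M := by
    intro T
    induction T using Finset.induction_on with
    | empty =>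
      intro _
      exact ⟨1, M₀, Cm.init hM₀ hne, fun q hq => absurd hq (Finset.notMem_empty q)⟩
    | insert q T hqT ih =>
      intro hT
      obtain ⟨D, M, hM, hS⟩ := ih fun q' hq' => hT q' (Finset.mem_insert_of_mem hq')
      obtain ⟨N, hN, hNS⟩ := hsep D M hM q.1 q.2 (hT q (Finset.mem_insert_self q T))
      obtain ⟨⟨D', hM'⟩, hF⟩ := hN.fol hOF hM
      refine ⟨D', N * M, hM', fun q' hq' => ?_⟩
      rcases Finset.mem_insert.1 hq' with rfl | hq'T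
      · exact hNS
      · exact hF _ _ _ (hOV _) (hOV _) (hS q' hq'T)
  obtain ⟨D, M, hM, hS⟩ := key (Finset.univ.filter fun q : ι × ι => q.1 ≠ q.2)
    fun q hq => (Finset.mem_filter.1 hq).2
  have hS : ∀ t t', t ≠ t' → Sep (V t) (algebraMap O F (p t)) (V t') M := fun t t' htt =>
    hS (t, t') (Finset.mem_filter.2 ⟨Finset.mem_univ _, htt⟩)
  -- the local steps
  have key₂ : ∀ T : Finset ι, ∃ M' : Submodule O F, Fol M₀ M M' ∧ ∀ t ∈ T, Has (Φ t) (V t) M' := by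
    intro T
    induction T using Finset.induction_on with
    | empty => exact ⟨M, Fol.refl hM, fun t ht => absurd ht (Finset.notMem_empty t)⟩
    | insert t T htT ih =>
      obtain ⟨M₁, hF₁, hT⟩ := ih
      obtain ⟨⟨D₁, hM₁⟩, hs₁⟩ := hF₁
      obtain ⟨M₂, hF₂, hH, hpres⟩ := lu_step hOF hM₁ (hOV t) (hp0 t) (hst t)
        (κ := {t' : ι // t' ≠ t}) (fun t' => V t'.1) (fun t' => hOV t'.1)
        (fun t' => hs₁ _ _ _ (hOV _) (hOV _) (hS t t'.1 t'.2.symm))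
      refine ⟨M₂, Fol.trans ⟨⟨D₁, hM₁⟩, hs₁⟩ hF₂, fun t' ht' => ?_⟩
      rcases Finset.mem_insert.1 ht' with rfl | ht'T
      · exact hH
      · exact hpres ⟨t', by rintro rfl; exact htT ht'T⟩ _ (hT t' ht'T)
  obtain ⟨M', ⟨⟨D', hM'⟩, -⟩, hall⟩ := key₂ Finset.univ
  exact ⟨D', M', hM', fun t => hall t (Finset.mem_univ t)⟩

end fam

section cn

variable {F L : Type} [Field F] [Field L] {D : Subring F} {π : D →+* L}
  {W : ValuationSubring L} {V : ValuationSubring F}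

lemma cn_of (h : Tr D π W V) {z p : F} {zb pb : L} (hz : Im π z zb) (hp : Im π p pb)
    (hpb : pb ≠ 0) (hc : CN W pb zb) : CN V p z := by
  obtain ⟨h1, n, h2⟩ := hc
  exact ⟨(tr_mem h hz).2 h1, n, (tr_mem h ((hz.pow n).mul (hp.inv h.unit hpb))).2 h2⟩

/-- Elements of the local ring are bounded. -/
lemma bdd_of (h : Tr D π W V) {z p : F} {zb pb : L} (hz : Im π z zb) (hp : Im π p pb)
    (hpW : ∀ w : L, ∃ n : ℕ, pb ^ n * w ∈ W) : ∃ n : ℕ, p ^ n * z ∈ V := by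
  obtain ⟨n, hn⟩ := hpW zb
  exact ⟨n, (tr_mem h ((hp.pow n).mul hz)).2 hn⟩

end cn

section point

variable {O F L : Type} [CommRing O] [Field F] [Algebra O F] [Field L]

/-- The separation of the centres of two valuations of the residue field of a point. -/
theorem sep_same [IsDomain O] {M₀ : Submodule O F} {d : ℕ}
    {M : Submodule O F} (hM : Cm M₀ d M) {D : Subring F} {π : D →+* L} {y₀ : F}
    (h : Pt M₀ D π y₀) {W W' : ValuationSubring L} {V V' : ValuationSubring F}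
    (hV : Tr D π W V) (hV' : Tr D π W' V')
    (hπ : Function.Surjective π) (hOV : ∀ o, algebraMap O F o ∈ V)
    (hOV' : ∀ o, algebraMap O F o ∈ V') (p p' : O) (hp0 : p ≠ 0) (hp0' : p' ≠ 0)
    {σ : O →+* L} (hσ : ∀ o, π ⟨_, h.OA o⟩ = σ o) (hpW : ∀ z : L, ∃ n : ℕ, σ p ^ n * z ∈ W)
    (hpW' : ∀ z : L, ∃ n : ℕ, σ p' ^ n * z ∈ W') {zb : L} (hzb : zb ≠ 0)
    (hc : CN W (σ p) zb) (hc' : CN W' (σ p') zb⁻¹) :
    ∃ N, Bl M N ∧ Sep V (algebraMap O F p) V' (N * M) ∧ Sep V' (algebraMap O F p') V (N * M) := by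
  classical
  have hσI : ∀ o, Im π (algebraMap O F o) (σ o) := fun o => ⟨h.OA o, hσ o⟩
  have hσ0 : ∀ o, o ≠ 0 → σ o ≠ 0 := fun o ho => by
    rw [← hσ o]
    exact h.OL o ho
  obtain ⟨g, hg⟩ := Gen.exists hOV hM.fg hM.ne
  obtain ⟨g', hg'⟩ := Gen.exists hOV' hM.fg hM.ne
  obtain ⟨hMD, hfr⟩ := frac_chart hV h.OA h.OL h.mem h.ne h.MA h.fr hM.pos hM.le hM.comm hg.1
    hg.2.1 hg.2.2
  obtain ⟨⟨z, hz⟩, hzz⟩ := hπ zb
  have hzI : Im π z zb := ⟨hz, hzz⟩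
  obtain ⟨b, hb, c, hc₁, hcD, hcπ, hzbc⟩ := hfr z hz
  have hcI : Im π c (π ⟨c, hcD⟩) := ⟨hcD, rfl⟩
  have hc0 : c ≠ 0 := hcI.ne_zero hcπ
  have hbc : b = z * c := by
    rw [hzbc, mul_assoc, inv_mul_cancel₀ hc0, mul_one]
  have hbI : Im π b (zb * π ⟨c, hcD⟩) := by
    rw [hbc]
    exact hzI.mul hcI
  have hbπ : zb * π ⟨c, hcD⟩ ≠ 0 := mul_ne_zero hzb hcπ
  have hb0 : b ≠ 0 := hbI.ne_zero hbπ
  obtain ⟨k, hk⟩ := chart_pow_mem hg.1 hg.2.1 hb
  obtain ⟨k', hk'⟩ := chart_pow_mem hg.1 hg.2.1 hc₁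
  set e := max k k' with he
  have hge : g ^ e ≠ 0 := pow_ne_zero e hg.2.1
  -- the bounds
  obtain ⟨n, hn⟩ := bdd_of hV (hcI.inv h.unit hcπ) (hσI p) hpW
  have hgI : Im π (g' / g) (π ⟨_, hMD g' hg'.1⟩) := ⟨_, rfl⟩
  obtain ⟨n', hn'⟩ := bdd_of hV' ((hgI.pow e).mul (hbI.inv h.unit hbπ)) (hσI p') hpW'
  refine sep_step hM hOV hOV' (a := b * g ^ e) (b := c * g ^ e) (d := e)
    (hk e (le_max_left _ _)) (hk' e (le_max_right _ _)) (mul_ne_zero hb0 hge)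
    (mul_ne_zero hc0 hge) hg hg' ?_ ?_ (q := p ^ n * p' ^ n')
    (mul_ne_zero (pow_ne_zero _ hp0) (pow_ne_zero _ hp0')) ?_ ?_
  · rw [mul_div_mul_right _ _ hge, hbc, mul_div_cancel_right₀ _ hc0]
    exact cn_of hV hzI (hσI p) (hσ0 p hp0) hc
  · have h1 : c * g ^ e / (b * g ^ e) = z⁻¹ := by
      have hz0 : z ≠ 0 := hzI.ne_zero hzb
      rw [mul_div_mul_right _ _ hge, hbc]
      field_simp
    rw [h1]
    exact cn_of hV' (hzI.inv h.unit hzb) (hσI p') (hσ0 p' hp0') hc'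
  · have h1 : algebraMap O F (p ^ n * p' ^ n') * g ^ e / (c * g ^ e) =
        algebraMap O F p ^ n * c⁻¹ * algebraMap O F (p' ^ n') := by
      rw [map_mul, map_pow]
      field_simp
    rw [h1]
    exact V.mul_mem _ _ hn (hOV _)
  · have h1 : algebraMap O F (p ^ n * p' ^ n') * g' ^ e / (b * g ^ e) =
        algebraMap O F p' ^ n' * ((g' / g) ^ e * b⁻¹) * algebraMap O F (p ^ n) := by
      rw [map_mul, map_pow _ p', div_pow]
      field_simp
    rw [h1]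
    exact V'.mul_mem _ _ hn' (hOV' _)

/-- The separation of the centres of valuations of the residue fields of two points which are
separated by a form. -/
theorem sep_form [IsDomain O] {M₀ : Submodule O F} {d : ℕ} {L' : Type} [Field L']
    {M : Submodule O F} (hM : Cm M₀ d M) {D D' : Subring F} {π : D →+* L} {π' : D' →+* L'}
    {y₀ y₀' : F} (h : Pt M₀ D π y₀) (h' : Pt M₀ D' π' y₀') {W : ValuationSubring L}
    {W' : ValuationSubring L'} {V V' : ValuationSubring F}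
    (hV : Tr D π W V) (hV' : Tr D' π' W' V') (hOV : ∀ o, algebraMap O F o ∈ V)
    (hOV' : ∀ o, algebraMap O F o ∈ V') (p p' : O) (hp0 : p ≠ 0) (hp0' : p' ≠ 0)
    {σ : O →+* L} (hσ : ∀ o, π ⟨_, h.OA o⟩ = σ o)
    {σ' : O →+* L'} (hσ' : ∀ o, π' ⟨_, h'.OA o⟩ = σ' o)
    (hpW' : ∀ z : L', ∃ n : ℕ, σ' p' ^ n * z ∈ W') {g g' : F} (hg : Gen V M g)
    (hg' : Gen V' M g') {e : ℕ} {s : F} (hs : s ∈ M ^ e) (hs0 : Im π (s / g ^ e) 0) {w : L'}
    (hsw : Im π' (s / g' ^ e) w) (hw : w ≠ 0) :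
    ∃ N, Bl M N ∧ Sep V (algebraMap O F p) V' (N * M) ∧ Sep V' (algebraMap O F p') V (N * M) := by
  classical
  have hσI : ∀ o, Im π (algebraMap O F o) (σ o) := fun o => ⟨h.OA o, hσ o⟩
  have hσ0 : ∀ o, o ≠ 0 → σ o ≠ 0 := fun o ho => by
    rw [← hσ o]
    exact h.OL o ho
  have hσI' : ∀ o, Im π' (algebraMap O F o) (σ' o) := fun o => ⟨h'.OA o, hσ' o⟩
  have hσ0' : ∀ o, o ≠ 0 → σ' o ≠ 0 := fun o ho => by
    rw [← hσ' o]
    exact h'.OL o ho
  have hge : g ^ e ≠ 0 := pow_ne_zero e hg.2.1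
  have hge' : g' ^ e ≠ 0 := pow_ne_zero e hg'.2.1
  have hsne : s ≠ 0 := by
    rintro rfl
    rw [zero_div] at hsw
    exact hw (hsw.unique Im.zero)
  -- `p' ^ n * (g' ^ e / s)` is divisible by `p'`
  obtain ⟨n, hn⟩ := bdd_of hV' (hsw.inv h'.unit hw) (hσI' p') hpW'
  rw [inv_div] at hn
  set P : F := algebraMap O F p' with hP
  have hPI : Im π P (σ p') := hσI p'
  have hP0 : P ≠ 0 := hPI.ne_zero (hσ0 p' hp0')
  have hPn : P ^ (n + 1) ≠ 0 := pow_ne_zero _ hP0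
  have hgg' : g / g' ∈ V' := hg'.2.2 g hg.1
  refine sep_step hM hOV hOV' (a := s) (b := P ^ (n + 1) * g ^ e) (d := e) hs ?_ hsne
    (mul_ne_zero hPn hge) hg hg' ?_ ?_ (q := p' ^ (n + 1)) (pow_ne_zero _ hp0') ?_ ?_
  · have h1 : P ^ (n + 1) * g ^ e = (p' ^ (n + 1)) • g ^ e := by
      rw [Algebra.smul_def, map_pow]
    rw [h1]
    exact Submodule.smul_mem _ _ (Submodule.pow_mem_pow M hg.1 e)
  · refine cn_of hV (zb := 0) ?_ (hσI p) (hσ0 p hp0) ⟨W.zero_mem, 1, ?_⟩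
    · have h1 : s / (P ^ (n + 1) * g ^ e) = s / g ^ e * (P ^ (n + 1))⁻¹ := by
        field_simp
      rw [h1]
      exact hs0.zero_mul ((hPI.pow (n + 1)).inv h.unit (pow_ne_zero _ (hσ0 p' hp0'))).mem
    · rw [pow_one, zero_mul]
      exact W.zero_mem
  · have h1 : P ^ (n + 1) * g ^ e / s = P * (P ^ n * (g' ^ e / s) * (g / g') ^ e) := by
      rw [div_pow, pow_succ]
      field_simp
    have h2 : P ^ n * (g' ^ e / s) * (g / g') ^ e ∈ V' :=
      V'.mul_mem _ _ hn (pow_mem hgg' e)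
    rw [h1]
    refine ⟨V'.mul_mem _ _ (hOV' p') h2, 1, ?_⟩
    have h3 : (P * (P ^ n * (g' ^ e / s) * (g / g') ^ e)) ^ 1 * P⁻¹ =
        P ^ n * (g' ^ e / s) * (g / g') ^ e := by
      rw [pow_one]
      field_simp
    rw [h3]
    exact h2
  · rw [map_pow, ← hP, div_self (mul_ne_zero hPn hge)]
    exact V.one_mem
  · have h1 : algebraMap O F (p' ^ (n + 1)) * g' ^ e / s = P * (P ^ n * (g' ^ e / s)) := by
      rw [map_pow, ← hP, pow_succ]
      ring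
    rw [h1]
    exact V'.mul_mem _ _ (hOV' p') hn

/-- If there are no forms which vanish at exactly one of the points then the local rings are
equal. -/
theorem local_le [IsDomain O] {M₀ : Submodule O F} {d : ℕ} {L' : Type} [Field L']
    {M : Submodule O F} (hM : Cm M₀ d M) {D D' : Subring F} {π : D →+* L} {π' : D' →+* L'}
    {y₀ y₀' : F} (h : Pt M₀ D π y₀) (h' : Pt M₀ D' π' y₀') {W : ValuationSubring L}
    {W' : ValuationSubring L'} {V V' : ValuationSubring F}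
    (hV : Tr D π W V) (hV' : Tr D' π' W' V') {g g' : F} (hg : Gen V M g)
    (hg' : Gen V' M g')
    (hz : ∀ (e : ℕ), ∀ s ∈ M ^ e, Im π' (s / g' ^ e) 0 → Im π (s / g ^ e) 0) : D ≤ D' := by
  obtain ⟨hMD, hfr⟩ := frac_chart hV h.OA h.OL h.mem h.ne h.MA h.fr hM.pos hM.le hM.comm hg.1
    hg.2.1 hg.2.2
  obtain ⟨hMD', -⟩ := frac_chart hV' h'.OA h'.OL h'.mem h'.ne h'.MA h'.fr hM.pos hM.le hM.comm
    hg'.1 hg'.2.1 hg'.2.2
  have hAD' : (chart O M g').toSubring ≤ D' := chart_le_A h'.OA hMD'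
  intro a ha
  obtain ⟨b, hb, c, hc, hcD, hcπ, rfl⟩ := hfr a ha
  have hcI : Im π c (π ⟨c, hcD⟩) := ⟨hcD, rfl⟩
  have hc0 : c ≠ 0 := hcI.ne_zero hcπ
  obtain ⟨k, hk⟩ := chart_pow_mem hg.1 hg.2.1 hb
  obtain ⟨k', hk'⟩ := chart_pow_mem hg.1 hg.2.1 hc
  set e := max k k' with he
  have hge : g ^ e ≠ 0 := pow_ne_zero e hg.2.1
  have hge' : g' ^ e ≠ 0 := pow_ne_zero e hg'.2.1
  have hb' := hAD' (pow_div_mem hg'.2.1 e _ (hk e (le_max_left _ _)))
  have hc' := hAD' (pow_div_mem hg'.2.1 e _ (hk' e (le_max_right _ _)))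
  have hcI' : Im π' (c * g ^ e / g' ^ e) (π' ⟨_, hc'⟩) := ⟨hc', rfl⟩
  have hcn : π' ⟨_, hc'⟩ ≠ 0 := by
    intro h0
    rw [h0] at hcI'
    have h1 := hz e _ (hk' e (le_max_right _ _)) hcI'
    rw [mul_div_cancel_right₀ _ hge] at h1
    exact hcπ (hcI.unique h1)
  have h1 : b * c⁻¹ = b * g ^ e / g' ^ e * (c * g ^ e / g' ^ e)⁻¹ := by
    field_simp
  rw [h1]
  exact D'.mul_mem hb' (hcI'.inv h'.unit hcn).mem

end point

end Pool.Agent.H413.RV
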