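import Pool.Agent.H413.RV.Veronese
import Pool.Agent.H413.RV.Fam
import Pool.Graph.R_seed8.TH188.ARC.G9

/-!
# Points of bounded degree

The levels of a family of valuations are lowered by blowings-up in closed points. These keep the
regularity of the local rings at the centres of all valuations.
-/

set_option autoImplicit false
set_option linter.unusedVariables false
set_option linter.unusedSectionVars false

namespace Pool.Agent.H413.RV

open IsLocalRing Pool.Agent.TH188.QS Pool.Agent.W418.LU2 Pool.Agent.H918R2.Quad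
  Pool.Agent.TH188.ARC

variable {O F : Type} [CommRing O] [Field F] [Algebra O F]

/-- Lowering the level, with all the other valuations (see `Pool.Agent.TH188.ARC.lower_level`). -/
theorem lower_all [IsNoetherianRing O] [IsDomain O] {M₀ : Submodule O F}
    {𝓕 : Set (ValuationSubring F)} (h𝓕 : Fam M₀ 𝓕) {D : ℕ} {M : Submodule O F} (hM : Cm M₀ D M)
    {n : ℕ} (hlv : ∀ W ∈ 𝓕, Lv W M (n + 1))
    (hfin : {Q : Subring F | ∃ W ∈ 𝓕, ¬ Lv W M n ∧ LR W M Q}.Finite) :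
    ∃ (D' : ℕ) (M' : Submodule O F), Cm M₀ D' M' ∧ (∀ W ∈ 𝓕, Lv W M' n) ∧
      ∀ W : ValuationSubring F, (∀ o, algebraMap O F o ∈ W) → ∀ k, Lv W M k → Lv W M' k := by
  classical
  have key : ∀ T : Finset (Subring F), (∀ Q ∈ T, ∃ W ∈ 𝓕, ¬ Lv W M n ∧ LR W M Q) →
      ∃ (D' : ℕ) (M' : Submodule O F), Cm M₀ D' M' ∧
        (∀ W ∈ 𝓕, ∀ Q, LR W M Q → (Q ∈ T → Lv W M' n) ∧ (Q ∉ T → LR W M' Q)) ∧
        (∀ W : ValuationSubring F, (∀ o, algebraMap O F o ∈ W) → ∀ k, Lv W M k → Lv W M' k) := by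
    intro T
    induction T using Finset.induction_on with
    | empty =>
      intro _
      exact ⟨D, M, hM, fun W hW Q hQ => ⟨fun h => absurd h (Finset.notMem_empty _), fun _ => hQ⟩,
        fun W _ k h => h⟩
    | insert Q₀ T hQ₀T ih =>
      intro hT
      obtain ⟨D₁, M₁, hM₁, h1, h2⟩ := ih fun Q hQ => hT Q (Finset.mem_insert_of_mem hQ)
      obtain ⟨V, hV, hVn, hVQ⟩ := hT Q₀ (Finset.mem_insert_self _ _)
      have hVQ₁ : LR V M₁ Q₀ := (h1 V hV Q₀ hVQ).2 hQ₀T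
      obtain ⟨ϖ, hϖ0, hϖ⟩ := h𝓕.pos V hV
      obtain ⟨D₂, M₂, hD₂, hM₂, hle₂, hϖ₂, hne₂, hst⟩ := step_all_LR (h𝓕.O_mem V hV) hϖ0 hϖ
        hM₁.fg hVQ₁ (h𝓕.max V hV D₁ M₁ hM₁)
      refine ⟨D₁ * D₂, M₂, ⟨Nat.mul_pos hM₁.pos hD₂, hM₂, ?_, ?_, hne₂⟩, ?_, ?_⟩
      · rw [pow_mul]
        exact hle₂.trans (pow_le_pow' hM₁.le D₂)
      · intro y hy
        rw [pow_mul] at hy
        obtain ⟨s, hs, hsy⟩ := exists_smul_mem_pow' hM₁.comm D₂ y hy
        refine ⟨ϖ * s, mul_ne_zero (fun h => hϖ0 (by rw [h, map_zero])) hs, ?_⟩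
        rw [mul_smul]
        exact hϖ₂ _ hsy
      · intro W hW Q hQ
        have hOW := h𝓕.O_mem W hW
        have hs := hst W hOW
        refine ⟨fun hQT => ?_, fun hQT => ?_⟩
        · by_cases hc : Q ∈ T
          · exact (lv_step hOW hs ((h1 W hW Q hQ).1 hc)).1
          · -- `Q = Q₀`
            have hQQ : Q = Q₀ := by
              rcases Finset.mem_insert.1 hQT with h | h
              · exact h
              · exact absurd h hc
            subst hQQ
            have hWQ₁ : LR W M₁ Q := (h1 W hW Q hQ).2 hc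
            -- the level on `M₁`
            obtain ⟨Q', hQ', m, hm, hr⟩ := hlv W hW
            have hQQ' : Q' = Q := hQ'.unique hOW hQ
            subst hQQ'
            have h3 : Lv W M₁ (n + 1) := ⟨_, hWQ₁, m, hm, hr⟩
            have h4 := (lv_step hOW hs h3).2 hWQ₁
            exact h4
        · have hQ1 : Q ∉ T := fun h => hQT (Finset.mem_insert_of_mem h)
          have hQ2 : Q ≠ Q₀ := fun h => hQT (h ▸ Finset.mem_insert_self _ _)
          exact (hs Q ((h1 W hW Q hQ).2 hQ1)).2 hQ2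
      · intro W hW k hWn
        exact (lv_step hW (hst W hW) (h2 W hW k hWn)).1
  obtain ⟨D', M', hM', h1, h2⟩ := key hfin.toFinset (fun Q hQ => by
    rw [Set.Finite.mem_toFinset] at hQ
    exact hQ)
  refine ⟨D', M', hM', fun W hW => ?_, h2⟩
  by_cases hc : Lv W M n
  · exact h2 W (h𝓕.O_mem W hW) n hc
  · obtain ⟨Q, hQ, -⟩ := hlv W hW
    refine (h1 W hW Q hQ).1 ?_
    rw [Set.Finite.mem_toFinset]
    exact ⟨W, hW, hc, hQ⟩

/-- Lowering the level to zero. -/
theorem level_zero_all [IsNoetherianRing O] [IsDomain O] {M₀ : Submodule O F}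
    {𝓕 𝓖 : Set (ValuationSubring F)} (h𝓕 : Fam M₀ 𝓕)
    (hfin : ∀ (D : ℕ) (M : Submodule O F), Cm M₀ D M →
      {Q : Subring F | ∃ W ∈ 𝓕, W ∈ 𝓖 ∧ LR W M Q}.Finite)
    (n : ℕ) : ∀ {D : ℕ} {M : Submodule O F}, Cm M₀ D M → (∀ W ∈ 𝓕, Lv W M n) →
    (∀ W ∈ 𝓕, W ∉ 𝓖 → Lv W M 0) →
    ∃ (D' : ℕ) (M' : Submodule O F), Cm M₀ D' M' ∧ (∀ W ∈ 𝓕, Lv W M' 0) ∧
      ∀ W : ValuationSubring F, (∀ o, algebraMap O F o ∈ W) → ∀ k, Lv W M k → Lv W M' k := by
  induction n with
  | zero => exact fun {D M} hM h _ => ⟨D, M, hM, h, fun _ _ _ h => h⟩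
  | succ n ih =>
    intro D M hM h hg
    obtain ⟨D', M', hM', h', h''⟩ := lower_all h𝓕 hM h
      ((hfin D M hM).subset fun Q hQ => by
        obtain ⟨W, hW, hWn, hQ⟩ := hQ
        refine ⟨W, hW, ?_, hQ⟩
        by_contra hWG
        apply hWn
        obtain ⟨Q', hQ', m, hm, hr⟩ := hg W hW hWG
        exact ⟨Q', hQ', m, by omega, hr⟩)
    obtain ⟨D₂, M₂, hM₂, h2, h3⟩ := ih hM' h' fun W hW hWG =>
      h'' W (h𝓕.O_mem W hW) 0 (hg W hW hWG)
    exact ⟨D₂, M₂, hM₂, h2, fun W hW k h => h3 W hW k (h'' W hW k h)⟩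

lemma cm_trans {M₀ M M' : Submodule O F} {D D' : ℕ} (hM : Cm M₀ D M) [IsDomain O]
    (hM' : Cm M D' M') : Cm M₀ (D * D') M' := by
  refine ⟨Nat.mul_pos hM.pos hM'.pos, hM'.fg, ?_, fun y hy => ?_, hM'.ne⟩
  · rw [pow_mul]
    exact hM'.le.trans (pow_le_pow' hM.le D')
  · rw [pow_mul] at hy
    obtain ⟨s, hs, hsy⟩ := exists_smul_mem_pow' hM.comm D' y hy
    obtain ⟨t, ht, hty⟩ := hM'.comm _ hsy
    exact ⟨t * s, mul_ne_zero ht hs, by rw [mul_smul]; exact hty⟩

/-- The points of the generic fibre on the model `M`. -/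
lemma pt_cm [IsDomain O] {M₀ M : Submodule O F} {D : ℕ} (hM : Cm M₀ D M) {L : Type} [Field L]
    {A : Subring F} {π : A →+* L} {y₀ : F} (h : Pt M₀ A π y₀) {VL : ValuationSubring L}
    {V : ValuationSubring F} (hV : Tr A π VL V) (hOV : ∀ o, algebraMap O F o ∈ V) :
    ∃ g, Pt M A π g := by
  obtain ⟨g₀, hg₀, hg₀0⟩ := hM.ne
  obtain ⟨g, hg, hg0, hgV⟩ := exists_gen_max hOV hM.fg hg₀ hg₀0
  obtain ⟨h1, h2⟩ := frac_chart hV h.OA h.OL h.mem h.ne h.MA h.fr hM.pos hM.le hM.comm hg hg0 hgV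
  exact ⟨g, h.reg, h.unit, h.OA, h.OL, hg, hg0, h1, h2⟩

/-- One module for all the points of degree at most `d`, which keeps the regularity at all other
valuations. -/
theorem degree_all [IsDomain O] [IsRegularRing O] [Module.Finite ℤ O] {K : Type} [Field K]
    [Algebra O K] [IsFractionRing O K] [Algebra K F] [IsScalarTower O K F] [CharZero K]
    (hint : ∀ o : O, IsIntegral ℤ o) {ι : Type} [Fintype ι] [Nonempty ι]
    (y : ι → F) (hy : ∀ i, y i ≠ 0)
    (hreg : ∀ (i : ι) (P : Ideal (Algebra.adjoin K (Set.range fun j => y j / y i)).toSubring)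
      [P.IsPrime], IsRegularLocalRing (Localization.AtPrime P)) (d : ℕ) {D : ℕ}
    {M : Submodule O F} (hM : Cm (Submodule.span O (Set.range y)) D M) :
    ∃ (D' : ℕ) (M' : Submodule O F), Cm (Submodule.span O (Set.range y)) D' M' ∧
      (∀ W ∈ Fd (Submodule.span O (Set.range y)) d, Rg W M') ∧
      ∀ W : ValuationSubring F, (∀ o, algebraMap O F o ∈ W) → Rg W M → Rg W M' := by
  classical
  -- generators of `M`
  obtain ⟨G, hG⟩ := hM.fg
  obtain ⟨g₀, hg₀, hg₀0⟩ := hM.ne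
  let ι' : Type := {z : F // z ∈ G ∧ z ≠ 0}
  have hfin : Finite ι' := (G.finite_toSet.subset fun z hz => hz.1 :
    {z : F | z ∈ G ∧ z ≠ 0}.Finite).to_subtype
  have hft : Fintype ι' := Fintype.ofFinite ι'
  let y' : ι' → F := fun z => z.1
  have hy' : ∀ i, y' i ≠ 0 := fun i => i.2.2
  have hspan : Submodule.span O (Set.range y') = M := by
    rw [← hG]
    apply le_antisymm
    · rw [Submodule.span_le]
      rintro _ ⟨i, rfl⟩
      exact Submodule.subset_span i.2.1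
    · rw [Submodule.span_le]
      intro z hz
      by_cases h0 : z = 0
      · rw [h0]
        exact Submodule.zero_mem _
      · exact Submodule.subset_span ⟨⟨z, hz, h0⟩, rfl⟩
  have hne : Nonempty ι' := by
    by_contra h
    rw [not_nonempty_iff] at h
    apply hg₀0
    rw [← hspan, Set.range_eq_empty, Submodule.span_empty] at hg₀
    exact (Submodule.mem_bot O).1 hg₀
  have hreg' : ∀ (i : ι') (P : Ideal (Algebra.adjoin K (Set.range fun j => y' j / y' i)).toSubring)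
      [P.IsPrime], IsRegularLocalRing (Localization.AtPrime P) := fun i P hP =>
    reg_veronese y hy hreg hM.pos y' hy' (span_eq_of_cm (K := K) y hM y' hspan) i P
  obtain ⟨N, hN, hst⟩ := uniform_int (K := K) hint y' hy' hreg'
  obtain ⟨h1, h2⟩ := level_d hint y' hy' hN hst d
  rw [hspan] at h1 h2
  have hCm : Cm M 1 M := Cm.init hM.fg hM.ne
  obtain ⟨D', M', hM', hlv, hpres⟩ := level_zero_all (fam_d hint _ d)
    (𝓖 := {W : ValuationSubring F | W.valuation (N : F) < 1})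
    (fun D M hM => centres_d hint hN d hM) (N ^ d) hCm h1 h2
  refine ⟨D * D', M', cm_trans hM hM', fun W hW => ?_, fun W hOW hW => ?_⟩
  · refine (hlv W ?_).rg
    have hOW := (fam_d hint _ d).O_mem W hW
    obtain ⟨L, _, _, A, π, y₀, VL, hL, hP, hVL, hWT⟩ := hW
    obtain ⟨g, hg⟩ := pt_cm hM hP hWT hOW
    exact ⟨L, inferInstance, inferInstance, A, π, g, VL, hL, hg, hVL, hWT⟩
  · obtain ⟨g, hg, hg0, hgW, hr⟩ := hW
    exact (hpres W hOW 0 ⟨_, ⟨g, hg, hg0, hgW, rfl⟩, 0, le_rfl, hr⟩).rg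

end Pool.Agent.H413.RV
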