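import Pool.Agent.H893.AB.Cls2
import Pool.Agent.H893.EC.Ring
import Pool.Agent.H893.DD.P_rank
import Pool.Graph.R_seed8.H176.DT.G1
import Pool.Graph.R_seed8.TH188.QS.Bases3
import Pool.Graph.R_pool_sql_team_seeded_2aa45f1a.Q299.TD.Cls

/-!
# A class of valuations with defect

The class `Admissible` of helper893 (see `MP_3029eb_ag.LocalDomainsWithDefect`), which contains the
nearly Abhyankar valuations over fields of positive characteristic (those which miss equality in the
Abhyankar inequality by at most one), with arbitrary defect, and which is closed under composition,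
towers without defect and henselian descent.
-/

set_option autoImplicit false

universe u

namespace Pool.Agent.H413.RV

open IsLocalRing Pool.Agent.W418.LU2 Pool.Agent.TH188.QS Pool.Agent.H893.EC
open scoped NNReal

/-- The local ring of `Spec B` at the centre of the valuation ring `V`: the fractions of elements
of `B` whose denominators are units of `V`. -/
def centreRing {F : Type u} [Field F] (V : ValuationSubring F) (B : Subring F) : Subring F where
  carrier := {x | ∃ a ∈ B, ∃ b ∈ B, b ≠ 0 ∧ b⁻¹ ∈ V ∧ x = a * b⁻¹}
  mul_mem' := (lo V.toSubring B).mul_mem'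
  one_mem' := (lo V.toSubring B).one_mem'
  add_mem' := (lo V.toSubring B).add_mem'
  zero_mem' := (lo V.toSubring B).zero_mem'
  neg_mem' := (lo V.toSubring B).neg_mem'

/-- The chart `A[I / f]` of the blowing-up of `Spec A` in the ideal `I`. -/
def blowUpChart {F : Type u} [Field F] (A : Subring F) (I : Ideal A) (f : A) : Subring F :=
  Subring.closure ((A : Set F) ∪ {z | ∃ a ∈ I, z = (a : F) / (f : F)})

/-- `P` is a regular local ring and the zero set of `J` is a divisor with strict normal
crossings: the radical of `J` is generated by the product of some of the elements of a regular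
system of parameters. -/
def RegularPair (P : Type u) [CommRing P] (J : Ideal P) : Prop :=
  ∃ (_ : IsRegularLocalRing P) (n : ℕ) (x : Fin n → P) (s : Finset (Fin n)),
    Ideal.span (Set.range x) = IsLocalRing.maximalIdeal P ∧ ringKrullDim P = n ∧
      J.radical = Ideal.span {∏ i ∈ s, x i}

/-- The blowing-up of `X = Spec A` in `V(I)` is a log desingularization of `(X, V(D))` along the
valuation ring `V`. Here `f ∈ I` generates `I V`, the centre of the lift of the valuation lies in
the chart `Spec A[I / f]`, and the ideal `D I` defines the preimage of `V(D) ∪ V(I)`. -/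
def IsLogDesingularization {F : Type u} [Field F] (V : ValuationSubring F) (A : Subring F)
    (D I : Ideal A) : Prop :=
  ∃ f ∈ I, f ≠ 0 ∧ (∀ a ∈ I, (a : F) / (f : F) ∈ V) ∧
    RegularPair (centreRing V (blowUpChart A I f))
      (Ideal.span {z | ∃ a ∈ D * I, (z : F) = (a : F)})

/-- The valuation ring `V` is log uniformizable on `Spec A`. (The blowings-up in the ideals
`I₀ * I₁` are cofinal: the blowing-up in `I₀ * I₁` factors through the blowing-up in `I₀`.) -/
def IsLogUniformizable {F : Type u} [Field F] (V : ValuationSubring F) (A : Subring F) : Prop :=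
  ∀ D I₀ : Ideal A, D ≠ ⊥ → I₀ ≠ ⊥ →
    ∃ I₁ : Ideal A, I₁ ≠ ⊥ ∧ IsLogDesingularization V A D (I₀ * I₁)

/-- The image of the `R`-algebra generated by `T`. -/
def adjoined {R K : Type u} [CommRing R] [Field K] (ρ : R →+* K) (T : Set K) : Subring K :=
  Subring.closure ((ρ.range : Set K) ∪ T)

/-- Every element of the field `K` is a fraction of elements of `A`. -/
def HasFractionField {K : Type u} [Field K] (A : Subring K) : Prop :=
  ∀ z : K, ∃ a ∈ A, ∃ b ∈ A, b ≠ 0 ∧ z = a * b⁻¹

/-- The field `K` is finitely generated over `R`: it is the fraction field of an `R`-algebra of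
finite type. -/
def IsFinitelyGenerated {R K : Type u} [CommRing R] [Field K] (ρ : R →+* K) : Prop :=
  ∃ T : Set K, T.Finite ∧ HasFractionField (adjoined ρ T)

/-- The quadratic transform of `Q` along `V`: the local ring, at the centre of `V`, of the
blowing-up of `Spec Q` in the centre of `V`. -/
def quadraticTransform {K : Type u} [Field K] (V : ValuationSubring K) (Q : Subring K) :
    Subring K :=
  centreRing V (Subring.closure ((Q : Set K) ∪ {t | ∃ y ∈ Q, ∃ z ∈ Q,
    V.valuation y < 1 ∧ z ≠ 0 ∧ V.valuation z < 1 ∧
      (∀ w ∈ Q, V.valuation w < 1 → V.valuation w ≤ V.valuation z) ∧ t = y / z}))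

/-- The sequence of quadratic transforms of the local ring of `Spec A` at the centre of `V`. -/
def quadraticSequence {K : Type u} [Field K] (V : ValuationSubring K) (A : Subring K) :
    ℕ → Subring K
  | 0 => centreRing V A
  | n + 1 => quadraticTransform V (quadraticSequence V A n)

/-- The values of the maximal ideals in the sequence of quadratic transforms have an infinite sum:
every value of `V` is exceeded by the value of all products `z 0 * ... * z (n - 1)` of elements
`z i` of the maximal ideals of the rings of the sequence, for some `n`. -/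
def IsDivergent {K : Type u} [Field K] (V : ValuationSubring K) (A : Subring K) : Prop :=
  ∀ x : K, x ≠ 0 → ∃ n : ℕ, ∀ z : ℕ → K,
    (∀ i < n, z i ∈ quadraticSequence V A i ∧ z i ≠ 0 ∧ V.valuation (z i) < 1) →
      V.valuation (∏ i ∈ Finset.range n, z i) < V.valuation x

/-- The value group of `v` has the rational rank `r`: there are `r` nonzero elements of `K` with
independent values, and every value has a power which is a product of powers of their values. -/
def HasRationalRank {K : Type u} [Field K] (v : Valuation K ℝ≥0) (r : ℕ) : Prop :=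
  ∃ x : Fin r → K, (∀ i, x i ≠ 0) ∧ (∀ m : Fin r → ℤ, ∏ i, v (x i) ^ m i = 1 → m = 0) ∧
    ∀ z : K, z ≠ 0 → ∃ n : ℕ, n ≠ 0 ∧ ∃ m : Fin r → ℤ, v z ^ n = ∏ i, v (x i) ^ m i

/-- The homomorphism from the ground field `k` to the residue field of a valuation `v` of the
extension `ι : k → K` which is trivial on `k`. -/
noncomputable def residueMap {k K : Type u} [Field k] [Field K] (ι : k →+* K)
    (v : Valuation K ℝ≥0) (hk : ∀ c : k, c ≠ 0 → v (ι c) = 1) :
    k →+* ResidueField v.valuationSubring :=
  (residue v.valuationSubring).comp
    (ι.codRestrict v.valuationSubring.toSubring (@Pool.Agent.H893.DD.kV_mem k K _ _ ι.toAlgebra v hk))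

/-- The residue field of `v` as an extension field of the ground field `k`. -/
noncomputable abbrev residueAlgebra {k K : Type u} [Field k] [Field K] (ι : k →+* K)
    (v : Valuation K ℝ≥0) (hk : ∀ c : k, c ≠ 0 → v (ι c) = 1) :
    Algebra k (ResidueField v.valuationSubring) :=
  (residueMap ι v hk).toAlgebra

/-- The extension `κ / k` is separably generated: there is a finite transcendence basis `s` such
that `κ` is separable over `k(s)`. -/
def IsSeparablyGenerated (k κ : Type u) [Field k] [Field κ] [Algebra k κ] : Prop :=
  ∃ s : Finset κ, IsTranscendenceBasis k ((↑) : s → κ) ∧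
    Algebra.IsSeparable (IntermediateField.adjoin k (s : Set κ)) κ

/-- The valuation ring `V` of the field `K` over `R` is nearly Abhyankar: the homomorphism
`ρ : R → K` is the composite of `σ : R → k` and `ι : k → K`, where `k` is a field of characteristic
`p > 0` which consists of the fractions of elements of the image of `R`; `K` is finitely generated
over `k`, and `V` is the valuation ring of a valuation `v` of rank one which is trivial on `k`, has
the rational rank `r ≥ 1` and a separably generated residue field `κ(v)`, and whose deficiency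
`tr.deg(K / k) - tr.deg(κ(v) / k) - r` is zero (the case of equality in the Abhyankar inequality) or
one. If it is one, `κ(v)` is finitely generated over `k`, and infinite if `r = 1`. -/
def IsNearlyAbhyankar {R K : Type u} [CommRing R] [Field K] (ρ : R →+* K)
    (V : ValuationSubring K) : Prop :=
  ∃ (k : Type u) (_ : Field k) (σ : R →+* k) (ι : k →+* K), ρ = ι.comp σ ∧
    (∀ c : k, ∃ a b : R, σ b ≠ 0 ∧ c = σ a / σ b) ∧ (∃ p : ℕ, p.Prime ∧ CharP k p) ∧
    (letI := ι.toAlgebra
     Algebra.EssFiniteType k K ∧
      ∃ (v : Valuation K ℝ≥0) (hk : ∀ c : k, c ≠ 0 → v (ι c) = 1) (r : ℕ),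
        V = v.valuationSubring ∧ 1 ≤ r ∧ HasRationalRank v r ∧
          (letI := residueAlgebra ι v hk
           IsSeparablyGenerated k (ResidueField v.valuationSubring) ∧
            (Algebra.trdeg k K =
                Algebra.trdeg k (ResidueField v.valuationSubring) + (r : Cardinal) ∨
              (Algebra.trdeg k K =
                  Algebra.trdeg k (ResidueField v.valuationSubring) + ((r + 1 : ℕ) : Cardinal) ∧
                Algebra.EssFiniteType k (ResidueField v.valuationSubring) ∧
                (r = 1 → Infinite (ResidueField v.valuationSubring))))))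

/-- `V` is the composite of the valuation ring `V₁` and the valuation ring `W` of its residue
field. -/
def IsComposite {K : Type u} [Field K] (V V₁ : ValuationSubring K)
    (W : ValuationSubring (ResidueField V₁)) : Prop :=
  ∀ z : K, z ∈ V ↔ ∃ hz : z ∈ V₁, residue V₁ ⟨z, hz⟩ ∈ W

section key

open Polynomial

variable {K : Type u} [Field K] (V : ValuationSubring K) {L : Subfield K} (θ : K)

/-- The monic polynomial `ϕ` over `L` of positive degree is a key polynomial for the valuation
`f ↦ |f(θ)|` of polynomials: if `f` and `g` are nonzero polynomials of smaller degree and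
`f g = q ϕ + r` with `deg r < deg ϕ`, then `|q(θ) ϕ(θ)| < |f(θ) g(θ)|`. -/
def IsKey (ϕ : L[X]) : Prop :=
  ϕ.Monic ∧ 0 < ϕ.natDegree ∧ ∀ f g : L[X], f.degree < ϕ.degree → g.degree < ϕ.degree →
    f ≠ 0 → g ≠ 0 → V.valuation (aeval θ (f * g /ₘ ϕ * ϕ)) < V.valuation (aeval θ (f * g))

/-- The polynomials of degree less than the degree of `ϕ` have an orthogonal basis over `L` with
respect to the valuation `f ↦ |f(θ)|`. -/
def IsDefectless (ϕ : L[X]) : Prop :=
  ∃ (n : ℕ) (β : Fin n → L[X]), (∀ i, (β i).degree < ϕ.degree ∧ β i ≠ 0) ∧
    (∀ f : L[X], f.degree < ϕ.degree → ∃ c : Fin n → L, f = ∑ i, C (c i) * β i) ∧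
    ∀ (c : Fin n → L) (i : Fin n), V.valuation (aeval θ (C (c i) * β i)) ≤
      V.valuation (aeval θ (∑ j, C (c j) * β j))

/-- The value of `f(θ)` is determined by `ϕ`: in the `ϕ`-adic expansion `f = ∑ f_k ϕ ^ k` with
`deg f_k < deg ϕ` the value of no term at `θ` is greater than the value of `f(θ)`. -/
def IsDetermined (ϕ f : L[X]) : Prop :=
  ∃ (N : ℕ) (d : ℕ → L[X]), (∀ k, (d k).degree < ϕ.degree) ∧
    f = ∑ k ∈ Finset.range N, d k * ϕ ^ k ∧
    ∀ k < N, V.valuation (aeval θ (d k * ϕ ^ k)) ≤ V.valuation (aeval θ f)

end key

open Polynomial in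
/-- The extension `L ⊆ L'` of subfields of `K` is finite and has no defect with respect to the
valuation ring `V` of `K`: for some valuation ring `W` over `V` of some extension field `M` of `K`
(for example the henselization), some root `ζ ∈ M` of a monic polynomial `f` over `V ∩ L` with
`|f'(ζ)| = 1`, and some nonzero elements `β i` of `L'`, the field `L'` is contained in the sum of
the lines `L(ζ) β i`, and the `β i` are orthogonal over `L(ζ) = L[ζ]`. -/
def IsFiniteWithoutDefect {K : Type u} [Field K] (V : ValuationSubring K) (L L' : Subfield K) :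
    Prop :=
  L ≤ L' ∧ ∃ (M : Type u) (_ : Field M) (_ : Algebra K M) (W : ValuationSubring M) (ζ : M)
    (f : L[X]) (n : ℕ) (β : Fin n → K), W.comap (algebraMap K M) = V ∧ f.Monic ∧
    (∀ i, (f.coeff i : K) ∈ V) ∧ eval₂ ((algebraMap K M).comp L.subtype) ζ f = 0 ∧
    W.valuation (eval₂ ((algebraMap K M).comp L.subtype) ζ (derivative f)) = 1 ∧
    (∀ i, β i ∈ L' ∧ β i ≠ 0) ∧
    (∀ z ∈ L', ∃ c : Fin n → L[X], algebraMap K M z =
      ∑ i, eval₂ ((algebraMap K M).comp L.subtype) ζ (c i) * algebraMap K M (β i)) ∧
    ∀ (c : Fin n → L[X]) (i : Fin n),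
      W.valuation (eval₂ ((algebraMap K M).comp L.subtype) ζ (c i) * algebraMap K M (β i)) ≤
        W.valuation (∑ j, eval₂ ((algebraMap K M).comp L.subtype) ζ (c j) * algebraMap K M (β j))

open Polynomial in
/-- The subfields `L` of `K` which are reached from the field `E` by a tower of steps without
defect with respect to the valuation ring `V` of `K`. -/
inductive Tower (E : Type u) {K : Type u} [Field E] [Field K] [Algebra E K]
    (V : ValuationSubring K) : Subfield K → Prop
  /-- The tower starts with (the image of) `E`. -/
  | base : Tower E V (algebraMap E K).fieldRange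
  /-- The step from `L` to `L(t)`, where `t` is transcendental and the value of every polynomial in
  `t` is determined by a defectless key polynomial. -/
  | transcendental (L : Subfield K) (t : K) : Tower E V L → Transcendental L t →
    (∀ f : L[X], ∃ ϕ : L[X], IsKey V t ϕ ∧ IsDefectless V t ϕ ∧ IsDetermined V t ϕ f) →
    Tower E V (L ⊔ Subfield.closure {t})
  /-- The step from `L` to a finite extension `L'` without defect. -/
  | finite (L L' : Subfield K) : Tower E V L → IsFiniteWithoutDefect V L L' → Tower E V L'

/-- The valuation ring `V` of the field `L` has rank one: it is a maximal proper subring which is a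
valuation ring. -/
def IsRankOne {L : Type u} [Field L] (V : ValuationSubring L) : Prop :=
  V ≠ ⊤ ∧ ∀ U : ValuationSubring L, V < U → U = ⊤

/-- The rational rank of `V` is finite: there are finitely many nonzero elements `γ i` of the
subfield `F` such that every value has a power which is the value of a product of powers of the
`γ i`. -/
def HasFiniteRationalRank (F : Type u) {L : Type u} [Field F] [Field L] [Algebra F L]
    (V : ValuationSubring L) : Prop :=
  ∃ (r : ℕ) (γ : Fin r → F), (∀ i, γ i ≠ 0) ∧ ∀ z : L, z ≠ 0 → ∃ n : ℕ, 0 < n ∧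
    ∃ m : Fin r → ℤ, V.valuation z ^ n = V.valuation (algebraMap F L (∏ i, γ i ^ m i))

open Polynomial in
/-- The extension `L = F(ζ)` of `F` lies in the henselization of `F` with respect to `V ∩ F`: the
minimal polynomial `h` of `ζ` over `F` has coefficients in `V`, its derivative satisfies
`|h'(ζ)| = 1`, and `|ζ - a| < 1` for some `a ∈ F`. -/
def IsInHenselization (F : Type u) {L : Type u} [Field F] [Field L] [Algebra F L]
    (V : ValuationSubring L) : Prop :=
  ∃ (ζ : L) (a : F), (∀ z : L, ∃ f : F[X], aeval ζ f = z) ∧
    (∀ i, algebraMap F L ((minpoly F ζ).coeff i) ∈ V) ∧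
    V.valuation (aeval ζ (derivative (minpoly F ζ))) = 1 ∧
    V.valuation (ζ - algebraMap F L a) < 1

/-- The smallest class of valuation rings of fields over `R` which contains the discrete and
divergent ones, the known ones and the nearly Abhyankar ones, and which is closed under composition,
towers without defect and henselian descent. -/
inductive Admissible (R : Type u) [CommRing R] :
    ∀ {K : Type u} [Field K], (R →+* K) → ValuationSubring K → Prop
  /-- The trivial valuation rings. -/
  | trivial {K : Type u} [Field K] (ρ : R →+* K) : Admissible R ρ (⊤ : ValuationSubring K)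
  /-- The discrete valuation rings of rank one, and the valuation rings with divergent sequences of
  quadratic transforms of all `R`-algebras of finite type. -/
  | divergent {K : Type u} [Field K] (ρ : R →+* K) (V : ValuationSubring K) :
    (IsDiscreteValuationRing V ∨ ∀ T : Set K, T.Finite → adjoined ρ T ≤ V.toSubring →
      IsDivergent V (adjoined ρ T)) → Admissible R ρ V
  /-- The valuation rings of a finitely generated field which are log uniformizable on the spectra
  of all `R`-algebras of finite type with this fraction field. -/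
  | known {K : Type u} [Field K] (ρ : R →+* K) (V : ValuationSubring K) : IsFinitelyGenerated ρ →
    (∀ T : Set K, T.Finite → adjoined ρ T ≤ V.toSubring → HasFractionField (adjoined ρ T) →
      IsLogUniformizable V (adjoined ρ T)) → Admissible R ρ V
  /-- The nearly Abhyankar valuation rings. -/
  | nearlyAbhyankar {K : Type u} [Field K] (ρ : R →+* K) (V : ValuationSubring K) :
    IsNearlyAbhyankar ρ V → Admissible R ρ V
  /-- The composites of a valuation ring `V₁` and a valuation ring `W` of its residue field. -/
  | composite {K : Type u} [Field K] (ρ : R →+* K) (V V₁ : ValuationSubring K)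
    (W : ValuationSubring (ResidueField V₁)) (hρ : ∀ a, ρ a ∈ V₁.toSubring) :
    IsComposite V V₁ W → Admissible R ρ V₁ →
    Admissible R ((residue V₁).comp (ρ.codRestrict V₁.toSubring hρ)) W → Admissible R ρ V
  /-- The valuation rings of a field `K` which is reached by a tower without defect from a finitely
  generated field `E` whose valuation ring is in the class. -/
  | tower {E K : Type u} [Field E] [Field K] [Algebra E K] (ρ : R →+* E)
    (V : ValuationSubring K) : (∀ a, algebraMap E K (ρ a) ∈ V) → IsFinitelyGenerated ρ →
    Admissible R ρ (V.comap (algebraMap E K)) → Tower E V ⊤ →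
    Admissible R ((algebraMap E K).comp ρ) V
  /-- Henselian descent: the valuation rings `V ∩ F` of a finitely generated field `F`, where `V` is
  a valuation ring of rank one in the class of a finite extension of `F` in the henselization. -/
  | descent {F L : Type u} [Field F] [Field L] [Algebra F L] (ρ : R →+* F)
    (V : ValuationSubring L) : (∀ a, algebraMap F L (ρ a) ∈ V) → IsFinitelyGenerated ρ →
    IsRankOne V → HasFiniteRationalRank F V → IsInHenselization F V →
    Admissible R ((algebraMap F L).comp ρ) V → Admissible R ρ (V.comap (algebraMap F L))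

lemma quadraticSequence_eq {K : Type u} [Field K] (V : ValuationSubring K) (A : Subring K) :
    quadraticSequence V A = qseq V A := by
  funext n
  induction n with
  | zero => rfl
  | succ n ih =>
    change quadraticTransform V (quadraticSequence V A n) = qt V.toSubring (qseq V A n)
    rw [ih, qt_val]
    rfl

lemma IsDivergent.dv {K : Type u} [Field K] {V : ValuationSubring K} {A : Subring K}
    (h : IsDivergent V A) : Dv V (qseq V A) := by
  rw [← quadraticSequence_eq]
  exact dv_of_lt h

/-- The steps of a tower. -/
lemma Tower.inv {E K : Type u} [Field E] [Field K] [Algebra E K] {V : ValuationSubring K}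
    {R' : Subring K} (h0 : Pool.Agent.H176.DT.Inv V R' (algebraMap E K).fieldRange.subtype)
    {L : Subfield K} (hL : Tower E V L) : Pool.Agent.H176.DT.Inv V R' L.subtype := by
  have kp : ∀ {L : Subfield K} {θ : K} {ϕ : Polynomial L}, IsKey V θ ϕ → IsDefectless V θ ϕ →
      ∃ (n : ℕ) (β : Fin n → Polynomial L), Pool.Agent.H176.DT.KP V θ ϕ β := by
    rintro L θ ϕ ⟨h1, h2, h3⟩ ⟨n, β, h4, h5, h6⟩
    exact ⟨n, β, h1, h2, fun i => (h4 i).1, fun i => (h4 i).2, h5, h6, h3⟩
  induction hL with
  | base => exact h0
  | transcendental L t _ ht hdom ih =>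
    refine Pool.Agent.H176.DT.sub_trans V _ t ht (fun f => ?_) ih
    obtain ⟨ϕ, h1, h2, N, d, h3, h4, h5⟩ := hdom f
    obtain ⟨n, β, h6⟩ := kp h1 h2
    exact ⟨ϕ, n, β, h6, N, d, ⟨h3, h4⟩, h5⟩
  | finite L L' _ hnd ih => exact Pool.Agent.H176.DT.sub_nd V _ hnd.1 hnd.2 ih

lemma Admissible.good {R : Type u} [CommRing R] (hR : HJ R) {K : Type u} [Field K]
    {ρ : R →+* K} {V : ValuationSubring K} (h : Admissible R ρ V) :
    Pool.Agent.R187.CT.Good ρ V := by
  induction h with
  | trivial ρ => exact Pool.Agent.R187.CT.good_top ρ
  | divergent ρ V h =>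
    exact Pool.Agent.R187.CT.good_dv hR ρ V (h.imp_right fun h T hT hTV => (h T hT hTV).dv)
  | known ρ V hK h => exact Pool.Agent.R187.CT.good_given hR ρ V hK h
  | composite ρ V V₁ W hρ hc _ _ ih₁ ihW =>
    exact Pool.Agent.R187.CT.good_comp hR ρ hρ hc ih₁ ihW
  | tower ρ V hρ hE _ ht ih =>
    exact Pool.Agent.R187.CT.good_tower hR ρ V hρ hE ih fun R' h0 => ht.inv h0
  | @descent F L _ _ _ ρ V hρ hF hr1 hrr hhens _ ih =>
    obtain ⟨ζ, a, hgen, hcoef, hder, hres⟩ := hhens
    have hint : IsIntegral F ζ := by
      by_contra h1
      rw [minpoly.eq_zero h1, Polynomial.derivative_zero, map_zero, map_zero] at hder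
      exact zero_ne_one hder
    have halg : Algebra.IsAlgebraic F L := ⟨fun z => by
      obtain ⟨f, rfl⟩ := hgen z
      rw [Polynomial.aeval_eq_sum_range]
      refine (IsIntegral.sum _ fun i _ => ?_).isAlgebraic
      exact (hint.pow i).smul _⟩
    exact good_desc hR ρ V hρ hF ζ hgen hcoef hder a hres
      (Pool.Agent.H893.DD.t_arch V hr1.2) (Pool.Agent.H893.DD.t_nt V hr1.1) hrr ih
  | @nearlyAbhyankar K _ ρ V h =>
    obtain ⟨k, _, σ, ι, rfl, hσ, ⟨p, hp, hchar⟩, h⟩ := h
    let _ := ι.toAlgebra
    have hpf : Fact p.Prime := ⟨hp⟩
    obtain ⟨hess, v, hk, r, rfl, hr, ⟨x, hx0, hind, hrr⟩, hsg, h⟩ := h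
    have hess' : Algebra.EssFiniteType k K := hess
    exact @Pool.Agent.H893.AB.good_ring2 R k K _ _ p _ hchar σ hσ _ _ hess' v hk hsg r hr h x hx0
      hind hrr

/-- The valuations in the class are in general position on all models. -/
theorem Admissible.allGP {R : Type u} [CommRing R] (hR : HJ R) {K : Type u} [Field K]
    {ρ : R →+* K} {V : ValuationSubring K} (h : Admissible R ρ V) :
    Pool.Agent.Q299.TD.AllGP ρ V := by
  intro T hT hM
  obtain ⟨T₀, -, h⟩ := h.good hR
  exact h T hT hM.1 fun t _ => hM.2 t

end Pool.Agent.H413.RV
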