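import Pool.Agent.H413.RV.Loc

/-!
# Independent valuation rings
-/

set_option autoImplicit false

namespace Pool.Agent.H413.RV

variable {κ : Type} [Field κ]

lemma mem_of_sq {W : ValuationSubring κ} {z : κ} (h : z ^ 2 ∈ W) : z ∈ W := by
  rcases W.mem_or_inv_mem z with h1 | h1
  · exact h1
  · by_cases hz : z = 0
    · rw [hz]; exact W.zero_mem
    · have h2 : z = z ^ 2 * z⁻¹ := by field_simp
      rw [h2]
      exact W.mul_mem _ _ h h1

/-- The coarsening of the valuation ring `W` which is given by the element `p`: the elements `z`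
such that `p z ^ n` belongs to `W` for all `n`. -/
def coarse (W : ValuationSubring κ) (p : κ) (hp : p ∈ W) : ValuationSubring κ where
  carrier := {z | ∀ n : ℕ, p * z ^ n ∈ W}
  mul_mem' := by
    intro z z' hz hz' n
    apply mem_of_sq
    have h1 : (p * (z * z') ^ n) ^ 2 = (p * z ^ (n * 2)) * (p * z' ^ (n * 2)) := by
      rw [mul_pow, mul_pow, pow_mul, pow_mul]
      ring
    rw [h1]
    exact W.mul_mem _ _ (hz _) (hz' _)
  one_mem' := fun n => by rw [one_pow, mul_one]; exact hp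
  add_mem' := by
    intro z z' hz hz' n
    have key : ∀ u v : κ, u ≠ 0 → (∀ n : ℕ, p * u ^ n ∈ W) → v / u ∈ W → p * (u + v) ^ n ∈ W := by
      intro u v hu0 hu hv
      have h1 : p * (u + v) ^ n = p * u ^ n * (1 + v / u) ^ n := by
        rw [mul_assoc, ← mul_pow]
        congr 2
        field_simp
      rw [h1]
      exact W.mul_mem _ _ (hu n) (pow_mem (W.add_mem _ _ W.one_mem hv) n)
    by_cases hz0 : z = 0
    · rw [hz0, zero_add]
      exact hz' n
    by_cases hz0' : z' = 0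
    · rw [hz0', add_zero]
      exact hz n
    rcases W.mem_or_inv_mem (z' / z) with h | h
    · exact key z z' hz0 hz h
    · rw [inv_div] at h
      rw [add_comm]
      exact key z' z hz0' hz' h
  zero_mem' := fun n => by
    cases n with
    | zero => rw [pow_zero, mul_one]; exact hp
    | succ n => rw [zero_pow (Nat.succ_ne_zero n), mul_zero]; exact W.zero_mem
  neg_mem' := by
    intro z hz n
    rw [neg_pow]
    have h1 : p * ((-1) ^ n * z ^ n) = (-1) ^ n * (p * z ^ n) := by ring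
    rw [h1]
    exact W.mul_mem _ _ (pow_mem (W.neg_mem _ W.one_mem) n) (hz n)
  mem_or_inv_mem' := by
    intro z
    rcases W.mem_or_inv_mem z with h | h
    · exact Or.inl fun n => W.mul_mem _ _ hp (pow_mem h n)
    · exact Or.inr fun n => W.mul_mem _ _ hp (pow_mem h n)

lemma le_coarse (W : ValuationSubring κ) (p : κ) (hp : p ∈ W) : W ≤ coarse W p hp :=
  fun _ hz n => W.mul_mem _ _ hp (pow_mem hz n)

lemma coarse_ne_top {W : ValuationSubring κ} {p : κ} (hp : p ∈ W) (hp0 : p ≠ 0) (hpi : p⁻¹ ∉ W) :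
    coarse W p hp ≠ ⊤ := by
  intro h
  have h1 : p⁻¹ ∈ coarse W p hp := by
    rw [h]
    exact ValuationSubring.mem_top _
  apply hpi
  have h2 := h1 2
  have h3 : p * p⁻¹ ^ 2 = p⁻¹ := by field_simp
  rwa [h3] at h2

lemma cn_of_notMem {W : ValuationSubring κ} {p : κ} (hp : p ∈ W) {z : κ}
    (h : z⁻¹ ∉ coarse W p hp) : CN W p z := by
  refine ⟨?_, ?_⟩
  · rcases W.mem_or_inv_mem z with h1 | h1
    · exact h1
    · exact absurd (le_coarse W p hp h1) h
  · have h1 : ∃ n : ℕ, p * z⁻¹ ^ n ∉ W := by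
      by_contra h2
      push Not at h2
      exact h h2
    obtain ⟨n, hn⟩ := h1
    refine ⟨n, ?_⟩
    have h2 := (W.mem_or_inv_mem (p * z⁻¹ ^ n)).resolve_left hn
    have h3 : (p * z⁻¹ ^ n)⁻¹ = z ^ n * p⁻¹ := by
      rw [mul_inv, inv_pow, inv_inv, mul_comm]
    rwa [h3] at h2

/-- Independent valuation rings are separated by an element. -/
theorem exists_sep {W W' : ValuationSubring κ} (hind : ∀ U : ValuationSubring κ, W ≤ U → W' ≤ U →
    U = ⊤) {p p' : κ} (hp : p ∈ W) (hp0 : p ≠ 0) (hpi : p⁻¹ ∉ W) (hp' : p' ∈ W') (hp0' : p' ≠ 0)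
    (hpi' : p'⁻¹ ∉ W') : ∃ z : κ, z ≠ 0 ∧ CN W p z ∧ CN W' p' z⁻¹ := by
  have h1 : ¬ coarse W p hp ≤ coarse W' p' hp' := fun h =>
    coarse_ne_top hp' hp0' hpi' (hind _ ((le_coarse W p hp).trans h) (le_coarse W' p' hp'))
  have h2 : ¬ coarse W' p' hp' ≤ coarse W p hp := fun h =>
    coarse_ne_top hp hp0 hpi (hind _ (le_coarse W p hp) ((le_coarse W' p' hp').trans h))
  obtain ⟨x, hx, hx'⟩ : ∃ x, x ∈ coarse W p hp ∧ x ∉ coarse W' p' hp' := by
    by_contra h
    push Not at h
    exact h1 h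
  obtain ⟨y, hy, hy'⟩ : ∃ y, y ∈ coarse W' p' hp' ∧ y ∉ coarse W p hp := by
    by_contra h
    push Not at h
    exact h2 h
  have hx0 : x ≠ 0 := by
    rintro rfl
    exact hx' (ValuationSubring.zero_mem _)
  have hy0 : y ≠ 0 := by
    rintro rfl
    exact hy' (ValuationSubring.zero_mem _)
  refine ⟨x / y, div_ne_zero hx0 hy0, cn_of_notMem hp fun h => hy' ?_,
    cn_of_notMem hp' fun h => hx' ?_⟩
  · have h3 : y = x * (x / y)⁻¹ := by field_simp
    rw [h3]
    exact ValuationSubring.mul_mem _ _ _ hx h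
  · rw [inv_inv] at h
    have h3 : x = y * (x / y) := by field_simp
    rw [h3]
    exact ValuationSubring.mul_mem _ _ _ hy h

end Pool.Agent.H413.RV
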