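import Pool.Agent.H413.RV.Step

/-!
# The local step

A blowing-up of a projective model which improves the local ring at the centre of a valuation and
which is an isomorphism at the centres of finitely many other valuations.
-/

set_option autoImplicit false

namespace Pool.Agent.H413.RV

open Pool.Agent.W418.LU2 Pool.Agent.TH188.QS Pool.Agent.TH188.ARC Pool.Agent.H176.DT
  Pool.Agent.H918R2.Quad Pointwise

variable {O F : Type} [CommRing O] [Field F] [Algebra O F]

/-- The multiples of `b` by elements of the subring `P`. -/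
def Dv (P : Subring F) (hP : ∀ o, algebraMap O F o ∈ P) (b : F) : Submodule O F where
  carrier := {z | z / b ∈ P}
  zero_mem' := by
    change (0 : F) / b ∈ P
    rw [zero_div]
    exact P.zero_mem
  add_mem' := fun {x y} hx hy => by
    change (x + y) / b ∈ P
    rw [add_div]
    exact P.add_mem hx hy
  smul_mem' := fun c x hx => by
    change (c • x) / b ∈ P
    rw [Algebra.smul_def, mul_div_assoc]
    exact P.mul_mem (hP c) hx

lemma mem_Dv {P : Subring F} {hP : ∀ o, algebraMap O F o ∈ P} {b z : F} :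
    z ∈ Dv P hP b ↔ z / b ∈ P := Iff.rfl

lemma span_mul_le (q : O) (N : Submodule O F) :
    Submodule.span O {algebraMap O F q} * N ≤ N := by
  rw [Submodule.mul_le]
  intro a ha b hb
  obtain ⟨c, rfl⟩ := Submodule.mem_span_singleton.1 ha
  have h1 : c • algebraMap O F q * b = (c * q) • b := by
    rw [Algebra.smul_def, Algebra.smul_def, map_mul]
  rw [h1]
  exact Submodule.smul_mem _ _ hb

lemma span_mul_le_Dv {P : Subring F} (hP : ∀ o, algebraMap O F o ∈ P) {b q : F}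
    {N : Submodule O F} (h : ∀ z ∈ N, q * z / b ∈ P) :
    Submodule.span O {q} * N ≤ Dv P hP b := by
  rw [Submodule.mul_le]
  intro a ha z hz
  obtain ⟨c, rfl⟩ := Submodule.mem_span_singleton.1 ha
  have h1 : c • q * z = c • (q * z) := smul_mul_assoc c q z
  rw [h1]
  exact Submodule.smul_mem _ _ (h z hz)

/-- The data of a blowing-up of the model `M` in a subscheme of the fibre over `q`. -/
def Bl (M N : Submodule O F) : Prop :=
  ∃ d : ℕ, N.FG ∧ N ≤ M ^ d ∧ ∃ q : O, q ≠ 0 ∧ ∀ z ∈ M ^ d, q • z ∈ N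

lemma Bl.ne [IsDomain O] (hOF : Function.Injective (algebraMap O F)) {M N : Submodule O F}
    (h : Bl M N) (hM : ∃ g ∈ M, g ≠ 0) : ∃ y ∈ N, y ≠ 0 := by
  obtain ⟨d, -, -, q, hq, hqN⟩ := h
  obtain ⟨g, hg, hg0⟩ := hM
  have hq0 : algebraMap O F q ≠ 0 := fun h => hq (hOF (by rw [h, map_zero]))
  refine ⟨q • g ^ d, hqN _ (Submodule.pow_mem_pow M hg d), ?_⟩
  rw [Algebra.smul_def]
  exact mul_ne_zero hq0 (pow_ne_zero _ hg0)

/-- The relation between the models: `M'` has the invariants, and the centres which are separated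
on `M` are separated on `M'`. -/
def Fol (M₀ M M' : Submodule O F) : Prop :=
  (∃ D, Cm M₀ D M') ∧ ∀ (U U' : ValuationSubring F) (r : F), (∀ o, algebraMap O F o ∈ U) →
    (∀ o, algebraMap O F o ∈ U') → Sep U r U' M → Sep U r U' M'

lemma Fol.refl {M₀ M : Submodule O F} {D : ℕ} (hM : Cm M₀ D M) : Fol M₀ M M :=
  ⟨⟨D, hM⟩, fun _ _ _ _ _ h => h⟩

lemma Fol.trans {M₀ M M' M'' : Submodule O F} (h : Fol M₀ M M') (h' : Fol M₀ M' M'') :
    Fol M₀ M M'' :=
  ⟨h'.1, fun U U' r hU hU' hs => h'.2 U U' r hU hU' (h.2 U U' r hU hU' hs)⟩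

lemma Bl.fol [IsDomain O] (hOF : Function.Injective (algebraMap O F)) {M₀ M N : Submodule O F}
    {D : ℕ} (hM : Cm M₀ D M) (h : Bl M N) : Fol M₀ M (N * M) := by
  have hne := h.ne hOF hM.ne
  obtain ⟨d, hN, hNM, q, hq, hqN⟩ := h
  refine ⟨⟨_, cm_blow hOF hM hN hNM hq hqN⟩, fun U U' r hU hU' hs => ?_⟩
  obtain ⟨y, hy⟩ := Gen.exists hU hN hne
  obtain ⟨y', hy'⟩ := Gen.exists hU' hN hne
  exact hs.blow hU' hy hy'

/-- Independent centres are separated by a blowing-up. -/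
theorem sep_step [IsDomain O] {M₀ : Submodule O F} {D : ℕ} {M : Submodule O F}
    (hM : Cm M₀ D M) {V V' : ValuationSubring F} (hOV : ∀ o, algebraMap O F o ∈ V)
    (hOV' : ∀ o, algebraMap O F o ∈ V') {p p' : F} {d : ℕ} {a b g g' : F}
    (ha : a ∈ M ^ d) (hb : b ∈ M ^ d) (ha0 : a ≠ 0) (hb0 : b ≠ 0) (hg : Gen V M g)
    (hg' : Gen V' M g') (h : CN V p (a / b)) (h' : CN V' p' (b / a)) {q : O} (hq : q ≠ 0)
    (hqb : algebraMap O F q * g ^ d / b ∈ V) (hqa : algebraMap O F q * g' ^ d / a ∈ V') :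
    ∃ N : Submodule O F, Bl M N ∧ Sep V p V' (N * M) ∧ Sep V' p' V (N * M) := by
  classical
  let N : Submodule O F := Submodule.span O {a, b} ⊔ Submodule.span O {algebraMap O F q} * M ^ d
  have haN : a ∈ N := (le_sup_left : _ ≤ N) (Submodule.subset_span (Or.inl rfl))
  have hbN : b ∈ N := (le_sup_left : _ ≤ N) (Submodule.subset_span (Or.inr rfl))
  have hNM : N ≤ M ^ d := by
    refine sup_le ?_ (span_mul_le q _)
    rw [Submodule.span_le]
    rintro z (rfl | rfl)
    · exact ha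
    · exact hb
  have key : ∀ (U : ValuationSubring F) (hU : ∀ o, algebraMap O F o ∈ U) (c u : F), c ≠ 0 →
      c ∈ N → Gen U M u → a / c ∈ U → b / c ∈ U → algebraMap O F q * u ^ d / c ∈ U →
      Gen U N c := by
    intro U hU c u hc0 hcN hu hac hbc hqc
    have h1 : N ≤ Dv U.toSubring hU c := by
      refine sup_le ?_ (span_mul_le_Dv hU fun z hz => ?_)
      · rw [Submodule.span_le]
        rintro z (rfl | rfl)
        · exact hac
        · exact hbc
      · have h2 : algebraMap O F q * z / c = algebraMap O F q * u ^ d / c * (z / u ^ d) := by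
          have := pow_ne_zero d hu.2.1
          field_simp
        rw [h2]
        exact U.mul_mem _ _ hqc ((hu.pow hU d).2.2 z hz)
    exact ⟨hcN, hc0, fun m hm => h1 hm⟩
  have hVb : Gen V N b := key V hOV b g hb0 hbN hg h.1 (by rw [div_self hb0]; exact V.one_mem) hqb
  have hVa : Gen V' N a := key V' hOV' a g' ha0 haN hg' (by rw [div_self ha0]; exact V'.one_mem)
    h'.1 hqa
  refine ⟨N, ⟨d, ?_, hNM, q, hq, fun z hz => ?_⟩, ?_, ?_⟩
  · exact Submodule.FG.sup (Submodule.fg_span (by simp))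
      ((Submodule.fg_span (Set.finite_singleton _)).mul (hM.fg.pow d))
  · rw [Algebra.smul_def]
    exact (le_sup_right : _ ≤ N)
      (Submodule.mul_mem_mul (Submodule.subset_span (Set.mem_singleton _)) hz)
  · refine ⟨1, a * g', b * g, ?_, hg.mul hVb, ?_⟩
    · rw [pow_one]
      exact hg'.mul hVa
    · rw [pow_one, mul_div_mul_comm]
      exact h.mul (hg.2.2 g' hg'.1)
  · refine ⟨1, b * g, a * g', ?_, hg'.mul hVa, ?_⟩
    · rw [pow_one]
      exact hg.mul hVb
    · rw [pow_one, mul_div_mul_comm]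
      exact h'.mul (hg'.2.2 g hg.1)

/-- A vertical blowing-up whose local ring has the property `Φ`. -/
def HasSt (Φ : Subring F → Prop) (V : ValuationSubring F) (p : F) (A : Subring F) : Prop :=
  ∃ (T : Set F) (β : F) (n : ℕ), T.Finite ∧ β ∈ A ∧ β ≠ 0 ∧ (∀ t ∈ T, β * t ∈ A) ∧
    (∀ t ∈ T, t ∈ V) ∧ p ^ n * β⁻¹ ∈ PP V A T ∧ Φ (PP V A T)

/-- Separating forms of all large degrees. -/
lemma Sep.forms {V : ValuationSubring F} {p : F} {V' : ValuationSubring F} {M : Submodule O F}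
    (hOV' : ∀ o, algebraMap O F o ∈ V') (h : Sep V p V' M) {g g' : F} (hg : Gen V M g)
    (hg' : Gen V' M g') :
    ∃ d₀ : ℕ, ∀ d, d₀ ≤ d → ∃ S, Gen V' (M ^ d) S ∧ S / g ^ d * p⁻¹ ∈ V := by
  obtain ⟨e, s, g₁, hs, hg₁, -, n, hn⟩ := h
  refine ⟨e * n, fun d hd => ?_⟩
  obtain ⟨l, rfl⟩ := Nat.exists_eq_add_of_le hd
  refine ⟨s ^ n * g' ^ l, ?_, ?_⟩
  · rw [pow_add, pow_mul]
    exact (hg'.pow hOV' l).mul (hs.pow hOV' n)
  · have h1 : s ^ n * g' ^ l / g ^ (e * n + l) * p⁻¹ =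
        (s / g₁ ^ e) ^ n * p⁻¹ * ((g₁ / g) ^ (e * n) * (g' / g) ^ l) := by
      have h2 := hg.2.1
      have h3 := hg₁.2.1
      rw [div_pow, div_pow, div_pow, ← pow_mul, pow_add]
      field_simp
    rw [h1]
    exact V.mul_mem _ _ hn (V.mul_mem _ _ (pow_mem (hg.2.2 g₁ hg₁.1) _)
      (pow_mem (hg.2.2 g' hg'.1) _))

/-- The local step. -/
theorem lu_step [IsDomain O] (hOF : Function.Injective (algebraMap O F)) {M₀ : Submodule O F}
    {D : ℕ} {M : Submodule O F} (hM : Cm M₀ D M) {V : ValuationSubring F}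
    (hOV : ∀ o, algebraMap O F o ∈ V) {p : O} (hp0 : p ≠ 0) {Φ : Subring F → Prop}
    (hst : ∀ (D : ℕ) (M : Submodule O F), Cm M₀ D M → ∀ g, Gen V M g →
      HasSt Φ V (algebraMap O F p) (chart O M g).toSubring)
    {κ : Type} [Finite κ] (V' : κ → ValuationSubring F) (hOV' : ∀ t o, algebraMap O F o ∈ V' t)
    (hsep : ∀ t, Sep V (algebraMap O F p) (V' t) M) :
    ∃ M' : Submodule O F, Fol M₀ M M' ∧ Has Φ V M' ∧
      ∀ t (Ψ : Subring F → Prop), Has Ψ (V' t) M → Has Ψ (V' t) M' := by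
  classical
  have := Fintype.ofFinite κ
  set π : F := algebraMap O F p with hπ
  have hπ0 : π ≠ 0 := fun h => hp0 (hOF (by rw [← hπ, h, map_zero]))
  obtain ⟨g, hg⟩ := Gen.exists hOV hM.fg hM.ne
  choose g' hg' using fun t => Gen.exists (hOV' t) hM.fg hM.ne
  choose d₀ hd₀ using fun t => (hsep t).forms (hOV' t) hg (hg' t)
  obtain ⟨d, hd1, hd⟩ : ∃ d : ℕ, 1 ≤ d ∧ ∀ t, d₀ t ≤ d :=
    ⟨Finset.univ.sup d₀ + 1, Nat.le_add_left _ _, fun t =>
      (Finset.le_sup (Finset.mem_univ t)).trans (Nat.le_succ _)⟩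
  choose S hS hSV using fun t => hd₀ t d (hd t)
  -- the first blowing-up
  let N₁ : Submodule O F := Submodule.span O (Set.range S) ⊔ Submodule.span O {π} * M ^ d
  have hSN : ∀ t, S t ∈ N₁ := fun t =>
    (le_sup_left : _ ≤ N₁) (Submodule.subset_span ⟨t, rfl⟩)
  have hpN : ∀ z ∈ M ^ d, π * z ∈ N₁ := fun z hz =>
    (le_sup_right : _ ≤ N₁)
      (Submodule.mul_mem_mul (Submodule.subset_span (Set.mem_singleton _)) hz)
  have hN₁M : N₁ ≤ M ^ d := by
    refine sup_le ?_ (span_mul_le p _)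
    rw [Submodule.span_le]
    rintro _ ⟨t, rfl⟩
    exact (hS t).1
  have hN₁f : N₁.FG := Submodule.FG.sup (Submodule.fg_span (Set.finite_range S))
    ((Submodule.fg_span (Set.finite_singleton _)).mul (hM.fg.pow d))
  have hgd : g ^ d ≠ 0 := pow_ne_zero d hg.2.1
  have hg₁N : Gen V N₁ (π * g ^ d) := by
    refine ⟨hpN _ (Submodule.pow_mem_pow M hg.1 d), mul_ne_zero hπ0 hgd, fun m hm => ?_⟩
    have h1 : N₁ ≤ Dv V.toSubring hOV (π * g ^ d) := by
      refine sup_le ?_ (span_mul_le_Dv hOV fun z hz => ?_)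
      · rw [Submodule.span_le]
        rintro _ ⟨t, rfl⟩
        have h2 : S t / (π * g ^ d) = S t / g ^ d * π⁻¹ := by
          field_simp
        change S t / (π * g ^ d) ∈ V
        rw [h2]
        exact hSV t
      · rw [mul_div_mul_left _ _ hπ0]
        exact (hg.pow hOV d).2.2 z hz
    exact h1 hm
  set M₁ : Submodule O F := N₁ * M with hM₁
  set g₁ : F := π * g ^ d * g with hg₁
  have hG₁ : Gen V M₁ g₁ := hg.mul hg₁N
  have hBl₁ : Bl M N₁ := ⟨d, hN₁f, hN₁M, p, hp0, fun z hz => by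
    rw [Algebra.smul_def]
    exact hpN z hz⟩
  have hFol₁ : Fol M₀ M M₁ := hBl₁.fol hOF hM
  obtain ⟨⟨D₁, hCm₁⟩, -⟩ := hFol₁
  have hFol₁ : Fol M₀ M M₁ := hBl₁.fol hOF hM
  -- the separating forms
  let s : κ → F := fun t => S t ^ d * S t
  have hs : ∀ t, Gen (V' t) (M₁ ^ d) (s t) := by
    intro t
    rw [hM₁, mul_pow]
    exact (hS t).mul ((hS t).of_le hN₁M (hSN t) |>.pow (hOV' t) d)
  let f : κ → F := fun t => S t / (π * g ^ d)
  have hf : ∀ t, f t ∈ chart O M₁ g₁ := by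
    intro t
    refine Algebra.subset_adjoin ⟨S t * g, Submodule.mul_mem_mul (hSN t) hg.1, ?_⟩
    rw [hg₁, mul_div_mul_right _ _ hg.2.1]
  have hsf : ∀ t, s t / g₁ ^ d = π * f t ^ (d + 1) := by
    intro t
    change S t ^ d * S t / (π * g ^ d * g) ^ d = π * (S t / (π * g ^ d)) ^ (d + 1)
    have h1 := hg.2.1
    rw [div_pow, mul_pow, mul_pow, mul_pow, ← pow_mul, ← pow_mul, pow_succ, pow_succ,
      Nat.mul_succ, pow_add]
    field_simp
  -- the stage
  obtain ⟨T, β, n, hTf, hβA, hβ0, hTβ, hTV, hn, hΦ⟩ := hst D₁ M₁ hCm₁ g₁ hG₁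
  set A : Subring F := (chart O M₁ g₁).toSubring with hA
  set P : Subring F := PP V A T with hP
  have hAV : A ≤ V.toSubring := chart_le_V hOV hG₁.2.2
  have hclV : Subring.closure ((A : Set F) ∪ T) ≤ V.toSubring := by
    rw [Subring.closure_le]
    rintro z (hz | hz)
    · exact hAV hz
    · exact hTV z hz
  have hBP : Subring.closure ((A : Set F) ∪ T) ≤ P := le_lo _ _
  have hPV : P ≤ V.toSubring := lo_le hclV
  have hAP : A ≤ P := fun a ha => hBP (Subring.subset_closure (Or.inl ha))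
  have hTP : ∀ t ∈ T, t ∈ P := fun t ht => hBP (Subring.subset_closure (Or.inr ht))
  have hOA : ∀ o, algebraMap O F o ∈ A := fun o => Subalgebra.algebraMap_mem (chart O M₁ g₁) o
  have hOP : ∀ o, algebraMap O F o ∈ P := fun o => hAP (hOA o)
  -- the degree
  obtain ⟨k, hkn, hkβ, hkT⟩ : ∃ k : ℕ, n ≤ k ∧ β * g₁ ^ (d * k) ∈ M₁ ^ (d * k) ∧
      ∀ t ∈ T, β * t * g₁ ^ (d * k) ∈ M₁ ^ (d * k) := by
    obtain ⟨k₀, hk₀⟩ := chart_pow_mem hG₁.1 hG₁.2.1 hβA
    have h1 : ∀ t, ∃ k₁ : ℕ, t ∈ T → ∀ l, k₁ ≤ l → β * t * g₁ ^ l ∈ M₁ ^ l := by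
      intro t
      by_cases ht : t ∈ T
      · obtain ⟨k₁, hk₁⟩ := chart_pow_mem hG₁.1 hG₁.2.1 (hTβ t ht)
        exact ⟨k₁, fun _ => hk₁⟩
      · exact ⟨0, fun h => absurd h ht⟩
    choose e he using h1
    refine ⟨n + (k₀ + ∑ t ∈ hTf.toFinset, e t), Nat.le_add_right _ _, ?_, fun t ht => ?_⟩
    · refine hk₀ _ ?_
      refine le_trans ?_ (Nat.le_mul_of_pos_left _ hd1)
      omega
    · refine he t ht _ ?_
      have h2 : e t ≤ ∑ t ∈ hTf.toFinset, e t :=
        Finset.single_le_sum (f := e) (fun _ _ => Nat.zero_le _) (hTf.mem_toFinset.2 ht)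
      refine le_trans ?_ (Nat.le_mul_of_pos_left _ hd1)
      omega
  set b : F := β * g₁ ^ (d * k) with hb
  have hg₁k : g₁ ^ (d * k) ≠ 0 := pow_ne_zero _ hG₁.2.1
  have hb0 : b ≠ 0 := mul_ne_zero hβ0 hg₁k
  let Y : Set F := ({b} ∪ (fun t => β * t * g₁ ^ (d * k)) '' T) ∪ Set.range fun t => s t ^ k
  let N₂ : Submodule O F := Submodule.span O Y ⊔
    Submodule.span O {algebraMap O F (p ^ n)} * M₁ ^ (d * k)
  have hYf : Y.Finite :=
    ((Set.finite_singleton _).union (hTf.image _)).union (Set.finite_range _)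
  have hYN : ∀ y ∈ Y, y ∈ N₂ := fun y hy => (le_sup_left : _ ≤ N₂) (Submodule.subset_span hy)
  have hbN : b ∈ N₂ := hYN b (Or.inl (Or.inl rfl))
  have hpnN : ∀ z ∈ M₁ ^ (d * k), algebraMap O F (p ^ n) * z ∈ N₂ := fun z hz =>
    (le_sup_right : _ ≤ N₂)
      (Submodule.mul_mem_mul (Submodule.subset_span (Set.mem_singleton _)) hz)
  have hsk : ∀ t, Gen (V' t) (M₁ ^ (d * k)) (s t ^ k) := by
    intro t
    rw [pow_mul]
    exact (hs t).pow (hOV' t) k
  have hN₂M : N₂ ≤ M₁ ^ (d * k) := by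
    refine sup_le ?_ (span_mul_le _ _)
    rw [Submodule.span_le]
    rintro z ((hz | ⟨t, ht, rfl⟩) | ⟨t, rfl⟩)
    · rw [Set.mem_singleton_iff.1 hz]
      exact hkβ
    · exact hkT t ht
    · exact (hsk t).1
  have hN₂f : N₂.FG := Submodule.FG.sup (Submodule.fg_span hYf)
    ((Submodule.fg_span (Set.finite_singleton _)).mul (hCm₁.fg.pow _))
  have hN₂P : ∀ m ∈ N₂, m / b ∈ P := by
    have h1 : N₂ ≤ Dv P hOP b := by
      refine sup_le ?_ (span_mul_le_Dv hOP fun z hz => ?_)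
      · rw [Submodule.span_le]
        rintro z ((hz | ⟨t, ht, rfl⟩) | ⟨t, rfl⟩)
        · rw [Set.mem_singleton_iff.1 hz]
          change b / b ∈ P
          rw [div_self hb0]
          exact P.one_mem
        · have h2 : β * t * g₁ ^ (d * k) / b = t := by
            rw [hb]
            field_simp
          change β * t * g₁ ^ (d * k) / b ∈ P
          rw [h2]
          exact hTP t ht
        · obtain ⟨l, rfl⟩ := Nat.exists_eq_add_of_le hkn
          have h2 : s t ^ (n + l) / b = π ^ n * β⁻¹ * (π ^ l * (f t ^ (d + 1)) ^ (n + l)) := by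
            have h3 : s t ^ (n + l) / b = (s t / g₁ ^ d) ^ (n + l) * β⁻¹ := by
              rw [hb, div_pow, ← pow_mul]
              field_simp
            rw [h3, hsf, mul_pow, pow_add π]
            ring
          change s t ^ (n + l) / b ∈ P
          rw [h2]
          exact P.mul_mem hn (P.mul_mem (P.pow_mem (hOP p) _) (P.pow_mem (P.pow_mem (hAP (hf t)) _)
            _))
      · have h2 : algebraMap O F (p ^ n) * z / b = π ^ n * β⁻¹ * (z / g₁ ^ (d * k)) := by
          rw [hb, map_pow, ← hπ]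
          field_simp
        rw [h2]
        exact P.mul_mem hn (hAP (pow_div_mem hG₁.2.1 _ z hz))
    exact fun m hm => h1 hm
  have hG₂N : Gen V N₂ b := ⟨hbN, hb0, fun m hm => hPV (hN₂P m hm)⟩
  have hBl₂ : Bl M₁ N₂ := ⟨d * k, hN₂f, hN₂M, p ^ n, pow_ne_zero n hp0, fun z hz => by
    rw [Algebra.smul_def]
    exact hpnN z hz⟩
  refine ⟨N₂ * M₁, hFol₁.trans (hBl₂.fol hOF hCm₁), ⟨b * g₁, hG₁.mul hG₂N, ?_⟩, fun t Ψ hΨ => ?_⟩
  · have h1 : lo V.toSubring (chart O (N₂ * M₁) (b * g₁)).toSubring = P := by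
      refine lo_eq hclV ?_ ?_
      · rw [Subring.closure_le]
        have h1 : A ≤ (chart O (N₂ * M₁) (b * g₁)).toSubring := by
          have : chart O M₁ g₁ ≤ chart O (N₂ * M₁) (b * g₁) := Algebra.adjoin_le (by
            rintro _ ⟨m, hm, rfl⟩
            refine Algebra.subset_adjoin ⟨b * m, Submodule.mul_mem_mul hbN hm, ?_⟩
            rw [mul_div_mul_left _ _ hb0])
          exact this
        rintro z (hz | hz)
        · exact h1 hz
        · refine Algebra.subset_adjoin ⟨β * z * g₁ ^ (d * k) * g₁, Submodule.mul_mem_mul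
            (hYN _ (Or.inl (Or.inr ⟨z, hz, rfl⟩))) hG₁.1, ?_⟩
          have h2 := hG₁.2.1
          rw [mul_div_mul_right _ _ h2, hb]
          field_simp
      · let C : Subalgebra O F := { P with algebraMap_mem' := hOP }
        have : chart O (N₂ * M₁) (b * g₁) ≤ C := Algebra.adjoin_le (by
          rintro _ ⟨m, hm, rfl⟩
          refine Submodule.mul_induction_on hm (fun a ha c hc => ?_) (fun a c ha hc => ?_)
          · rw [mul_div_mul_comm]
            exact C.mul_mem (hN₂P a ha) (hAP (Algebra.subset_adjoin ⟨c, hc, rfl⟩))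
          · rw [add_div]
            exact C.add_mem ha hc)
        exact this
    rw [h1]
    exact hΦ
  · exact (hΨ.blow (hOV' t) hN₁M (hS t) (hSN t)).blow (hOV' t) hN₂M (hsk t)
      (hYN _ (Or.inr ⟨t, rfl⟩))

end Pool.Agent.H413.RV
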