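import Pool.Agent.H413.RV.Fam
import Pool.Agent.H413.RV.Ind
import Pool.Graph.R_pool_sql_team_seeded_2aa45f1a.Q299.RM.Sch2

/-!
# Models which are regular at the centres of finitely many independent valuations
-/

set_option autoImplicit false

open AlgebraicGeometry CategoryTheory Limits Pointwise HomogeneousLocalization

namespace Pool.Agent.H413.RV

open Pool.Agent.W418.LU2 Pool.Agent.TH188.QS Pool.Agent.TH188.ARC Pool.Agent.H176.DT
  Pool.Agent.H918R2.Quad Pool.Agent.H968R2.Quad Pool.Agent.W559.GF Pool.Agent.W930.GF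
  Pool.Agent.W191.GF
open Pool.Agent.Q299.TD (AllGP)
open Pool.Agent.Q299.RM (Im tr_mem point_data' hasStage_of_pt)

/-- The images of the closed points. -/
lemma closed_image {P : Scheme.{0}} {F L L' : Type} [Field F] [Field L] [Field L'] {D : Subring F}
    (π : D →+* L) (π' : D →+* L') (hu : ∀ a : D, π a ≠ 0 → (a : F)⁻¹ ∈ D)
    (hu' : ∀ a : D, π' a ≠ 0 → (a : F)⁻¹ ∈ D) (s : Spec (CommRingCat.of D) ⟶ P) :
    (Spec.map (CommRingCat.ofHom π) ≫ s) (IsLocalRing.closedPoint L : PrimeSpectrum L) =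
      (Spec.map (CommRingCat.ofHom π') ≫ s) (IsLocalRing.closedPoint L' : PrimeSpectrum L') := by
  have h1 : (Spec.map (CommRingCat.ofHom π)) (IsLocalRing.closedPoint L : PrimeSpectrum L) =
      (Spec.map (CommRingCat.ofHom π')) (IsLocalRing.closedPoint L' : PrimeSpectrum L') := by
    apply PrimeSpectrum.ext
    ext b
    change π b ∈ IsLocalRing.maximalIdeal L ↔ π' b ∈ IsLocalRing.maximalIdeal L'
    rw [IsLocalRing.maximalIdeal_eq_bot, IsLocalRing.maximalIdeal_eq_bot, Ideal.mem_bot,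
      Ideal.mem_bot]
    have key : ∀ {L₁ L₂ : Type} [Field L₁] [Field L₂] (π₁ : D →+* L₁) (π₂ : D →+* L₂),
        (∀ a : D, π₂ a ≠ 0 → (a : F)⁻¹ ∈ D) → π₁ b = 0 → π₂ b = 0 := by
      intro L₁ L₂ _ _ π₁ π₂ h2 h3
      by_contra h4
      have h5 := h2 b h4
      have hb0 : (b : F) ≠ 0 := by
        intro h6
        apply h4
        have h7 : b = 0 := Subtype.ext h6
        rw [h7, map_zero]
      have h6 : b * ⟨(b : F)⁻¹, h5⟩ = 1 := Subtype.ext (mul_inv_cancel₀ hb0)
      have h7 := congrArg π₁ h6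
      rw [map_mul, h3, zero_mul, map_one] at h7
      exact zero_ne_one h7
    exact ⟨key π π' hu', key π' π hu⟩
  exact congrArg (fun z => s z) h1

/-- A point is determined by its local ring. -/
lemma point_unique {X P : Scheme.{0}} (i : X ≅ P) {K : Type} [Field K]
    (fP : P ⟶ Spec (CommRingCat.of K)) [IsSeparated fP] {F : Type} [Field F]
    (η : Spec (CommRingCat.of F) ⟶ P) {D D' : Subring F} (hDD : D = D') {x x' : X}
    (π : D →+* X.residueField x) (π' : D' →+* X.residueField x')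
    (hu : ∀ a : D, π a ≠ 0 → (a : F)⁻¹ ∈ D) (hu' : ∀ a : D', π' a ≠ 0 → (a : F)⁻¹ ∈ D')
    (s : Spec (CommRingCat.of D) ⟶ P) (s' : Spec (CommRingCat.of D') ⟶ P) (h : io D ≫ s = η)
    (h' : io D' ≫ s' = η)
    (hx : X.fromSpecResidueField x ≫ i.hom = Spec.map (CommRingCat.ofHom π) ≫ s)
    (hx' : X.fromSpecResidueField x' ≫ i.hom = Spec.map (CommRingCat.ofHom π') ≫ s') :
    x = x' := by
  subst hDD
  have hss : s = s' := by
    have hd : IsDominant (io D) := ⟨io_dense D⟩
    refine ext_of_isDominant_of_isSeparated fP ?_ (io D) (h.trans h'.symm)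
    apply io_mono
    rw [← Category.assoc, ← Category.assoc, h, h']
  subst hss
  have h1 := closed_image π π' hu hu' s
  rw [← hx, ← hx'] at h1
  have h2 : i.hom x = i.hom x' := by
    have e1 : (X.fromSpecResidueField x ≫ i.hom)
        (IsLocalRing.closedPoint (X.residueField x) : PrimeSpectrum (X.residueField x)) =
        i.hom x := by
      exact congrArg (fun z => i.hom z) (Scheme.fromSpecResidueField_apply x _)
    have e2 : (X.fromSpecResidueField x' ≫ i.hom)
        (IsLocalRing.closedPoint (X.residueField x') : PrimeSpectrum (X.residueField x')) =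
        i.hom x' := by
      exact congrArg (fun z => i.hom z) (Scheme.fromSpecResidueField_apply x' _)
    rw [← e1, ← e2]
    exact h1
  have h3 := congrArg (fun z => i.inv z) h2
  change (i.hom ≫ i.inv) x = (i.hom ≫ i.inv) x' at h3
  rw [i.hom_inv_id] at h3
  exact h3

/-- Models of an integral projective scheme which are regular at the centres of finitely many
independent valuations of the residue fields of regular points. -/
theorem main3 {O K : Type} [CommRing O] [IsDedekindDomain O] [Field K] [Algebra O K]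
    [IsFractionRing O K] {X : Scheme.{0}} [IsIntegral X] (f : X ⟶ Spec (CommRingCat.of K))
    {A : Type} [CommRing A] [Algebra K A] (𝒜 : ℕ → Submodule K A) [GradedAlgebra 𝒜]
    (h0 : ∀ a ∈ 𝒜 0, ∃ q : K, algebraMap K A q = a) (s : Finset A) (hs : ∀ a ∈ s, a ∈ 𝒜 1)
    (hgen : Algebra.adjoin K (s : Set A) = ⊤) (i : X ≅ Proj 𝒜)
    (hif : i.hom ≫ Proj.toSpecZero 𝒜 ≫ Spec.map (CommRingCat.ofHom (algebraMap K (𝒜 0))) = f)
    {ι : Type} [Finite ι] (x : ι → X) (hx : Function.Injective x)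
    (hreg : ∀ t, IsRegularLocalRing (X.presheaf.stalk (x t))) (J : ι → Type) [∀ t, Finite (J t)]
    (W : ∀ t, J t → ValuationSubring (X.residueField (x t))) (σ : ∀ t, K →+* X.residueField (x t))
    (hσ : ∀ t, X.fromSpecResidueField (x t) ≫ f = Spec.map (CommRingCat.ofHom (σ t)))
    (p : ∀ t, J t → O) (hp0 : ∀ t j, p t j ≠ 0)
    (hOW : ∀ t j o, σ t (algebraMap O K o) ∈ W t j)
    (hpW : ∀ t j z, ∃ n : ℕ, σ t (algebraMap O K (p t j)) ^ n * z ∈ W t j)
    (hpi : ∀ t j, (σ t (algebraMap O K (p t j)))⁻¹ ∉ W t j)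
    (hind : ∀ t j j', j ≠ j' → ∀ U : ValuationSubring (X.residueField (x t)),
      W t j ≤ U → W t j' ≤ U → U = ⊤)
    (hW : ∀ t j, AllGP ((σ t).comp (algebraMap O K)) (W t j)) :
    ∃ (F : Type) (_ : Field F) (_ : Algebra K F) (_ : Algebra O F) (_ : IsScalarTower O K F)
      (M : Submodule O F) (g : F) (_ : g ∈ M) (_ : g ≠ 0)
      (e : pullback (modelMap M) (Spec.map (CommRingCat.ofHom (algebraMap O K))) ≅ X), M.FG ∧
      e.hom ≫ f = pullback.snd _ _ ∧
      ∀ t j, ∃ ζ : Spec (CommRingCat.of (W t j)) ⟶ model M,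
        Spec.map (CommRingCat.ofHom (W t j).subtype) ≫ ζ =
          X.fromSpecResidueField (x t) ≫ e.inv ≫ pullback.fst _ _ ∧
        IsRegularLocalRing ((model M).presheaf.stalk
          (ζ (IsLocalRing.closedPoint (W t j) : PrimeSpectrum (W t j)))) := by
  classical
  have hPne : Nonempty (Proj 𝒜) := ⟨i.hom (genericPoint X)⟩
  have hP : IsIntegral (Proj 𝒜) := isIntegral_of_isOpenImmersion i.inv
  obtain ⟨F, hF, η, hη⟩ := exists_generic (Proj 𝒜)
  let fP : Proj 𝒜 ⟶ Spec (CommRingCat.of K) :=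
    Proj.toSpecZero 𝒜 ≫ Spec.map (CommRingCat.ofHom (algebraMap K (𝒜 0)))
  obtain ⟨φ, hφ⟩ := Spec.map_surjective (η ≫ fP)
  let _ : Algebra K F := φ.hom.toAlgebra
  have hηK : η ≫ fP = Spec.map (CommRingCat.ofHom (algebraMap K F)) := hφ.symm
  let _ : Algebra O F := ((algebraMap K F).comp (algebraMap O K)).toAlgebra
  have hst : IsScalarTower O K F := IsScalarTower.of_algebraMap_eq' rfl
  have hOF : Function.Injective (algebraMap O F) := by
    rw [IsScalarTower.algebraMap_eq O K F]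
    exact (algebraMap K F).injective.comp (IsFractionRing.injective O K)
  obtain ⟨ι₀, hι, hne, y, hy, hat⟩ := proj_atlas 𝒜 η h0 s hs hgen hη hηK
  have hsep : IsSeparated fP := inferInstance
  choose D π y₀ V₀ sX hPt hTr₀ hπ hπσ hsη hψ using fun t =>
    point_data' (O := O) y hy i hηK hat (x t) (hreg t) (σ t) (by
      rw [← hσ t, ← hif]) ⊤
  choose V hTr using fun (t : ι) (j : J t) => exists_tr (D t) (π t) (W t j) (hPt t).unit
  have hσI : ∀ t o, Im (π t) (algebraMap O F o) (σ t (algebraMap O K o)) := fun t o =>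
    ⟨(hPt t).OA o, hπσ t o⟩
  have hOV : ∀ t j o, algebraMap O F o ∈ V t j := fun t j o =>
    (tr_mem (hTr t j) (hσI t o)).2 (hOW t j o)
  have hσp : ∀ t t' (j : J t), σ t' (algebraMap O K (p t j)) ≠ 0 := fun t t' j =>
    (map_ne_zero _).2 fun h => hp0 t j (IsFractionRing.injective O K (by rw [h, map_zero]))
  have hM₀ : (Submodule.span O (Set.range y)).FG := Submodule.fg_span (Set.finite_range y)
  obtain ⟨i₀⟩ := hne
  have hne : Nonempty ι₀ := ⟨i₀⟩
  have hne₀ : ∃ g ∈ Submodule.span O (Set.range y), g ≠ 0 :=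
    ⟨y i₀, Submodule.subset_span ⟨i₀, rfl⟩, hy i₀⟩
  obtain ⟨d, M, hM, hR⟩ := family hOF hM₀ hne₀ (ι := Σ t, J t) (fun q => V q.1 q.2)
    (fun q => p q.1 q.2) (fun q => hp0 q.1 q.2) (fun q => hOV q.1 q.2)
    (fun _ P => IsRegularLocalRing P)
    (by
      rintro d M hM ⟨t, j⟩ ⟨t', j'⟩ hne
      by_cases htt : t = t'
      · subst htt
        have hjj : j ≠ j' := by
          rintro rfl
          exact hne rfl
        obtain ⟨z, hz0, hz, hz'⟩ := exists_sep (hind t j j' hjj) (hOW t j _) (hσp t t j) (hpi t j)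
          (hOW t j' _) (hσp t t j') (hpi t j')
        obtain ⟨N, hN, h1, -⟩ := sep_same hM (hPt t) (hTr t j) (hTr t j') (hπ t) (hOV t j)
          (hOV t j') (p t j) (p t j') (hp0 t j) (hp0 t j') (σ := (σ t).comp (algebraMap O K))
          (hπσ t) (hpW t j) (hpW t j') hz0 hz hz'
        exact ⟨N, hN, h1⟩
      · obtain ⟨g, hg⟩ := Gen.exists (hOV t j) hM.fg hM.ne
        obtain ⟨g', hg'⟩ := Gen.exists (hOV t' j') hM.fg hM.ne
        by_cases hA : ∃ (e : ℕ) (s : F), s ∈ M ^ e ∧ Im (π t) (s / g ^ e) 0 ∧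
            ∃ w, w ≠ 0 ∧ Im (π t') (s / g' ^ e) w
        · obtain ⟨e, s, hs, hs0, w, hw, hsw⟩ := hA
          obtain ⟨N, hN, h1, -⟩ := sep_form hM (hPt t) (hPt t') (hTr t j) (hTr t' j') (hOV t j)
            (hOV t' j') (p t j) (p t' j') (hp0 t j) (hp0 t' j')
            (σ := (σ t).comp (algebraMap O K)) (hπσ t) (σ' := (σ t').comp (algebraMap O K))
            (hπσ t') (hpW t' j') hg hg' hs hs0 hsw hw
          exact ⟨N, hN, h1⟩
        by_cases hB : ∃ (e : ℕ) (s : F), s ∈ M ^ e ∧ Im (π t') (s / g' ^ e) 0 ∧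
            ∃ w, w ≠ 0 ∧ Im (π t) (s / g ^ e) w
        · obtain ⟨e, s, hs, hs0, w, hw, hsw⟩ := hB
          obtain ⟨N, hN, -, h1⟩ := sep_form hM (hPt t') (hPt t) (hTr t' j') (hTr t j) (hOV t' j')
            (hOV t j) (p t' j') (p t j) (hp0 t' j') (hp0 t j)
            (σ := (σ t').comp (algebraMap O K)) (hπσ t') (σ' := (σ t).comp (algebraMap O K))
            (hπσ t) (hpW t j) hg' hg hs hs0 hsw hw
          exact ⟨N, hN, h1⟩
        exfalso
        obtain ⟨hMD, -⟩ := frac_chart (hTr t j) (hPt t).OA (hPt t).OL (hPt t).mem (hPt t).ne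
          (hPt t).MA (hPt t).fr hM.pos hM.le hM.comm hg.1 hg.2.1 hg.2.2
        obtain ⟨hMD', -⟩ := frac_chart (hTr t' j') (hPt t').OA (hPt t').OL (hPt t').mem
          (hPt t').ne (hPt t').MA (hPt t').fr hM.pos hM.le hM.comm hg'.1 hg'.2.1 hg'.2.2
        have hCD := chart_le_A (hPt t).OA hMD
        have hCD' := chart_le_A (hPt t').OA hMD'
        have h1 : D t ≤ D t' := local_le hM (hPt t) (hPt t') (hTr t j) (hTr t' j') hg hg'
          fun e s hs h2 => by
            have h3 : Im (π t) (s / g ^ e) (π t ⟨_, hCD (pow_div_mem hg.2.1 e s hs)⟩) :=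
              ⟨_, rfl⟩
            by_contra h4
            exact hB ⟨e, s, hs, h2, _, fun h5 => h4 (by rw [h5] at h3; exact h3), h3⟩
        have h2 : D t' ≤ D t := local_le hM (hPt t') (hPt t) (hTr t' j') (hTr t j) hg' hg
          fun e s hs h2 => by
            have h3 : Im (π t') (s / g' ^ e) (π t' ⟨_, hCD' (pow_div_mem hg'.2.1 e s hs)⟩) :=
              ⟨_, rfl⟩
            by_contra h4
            exact hA ⟨e, s, hs, h2, _, fun h5 => h4 (by rw [h5] at h3; exact h3), h3⟩
        exact htt (hx (point_unique i fP η (le_antisymm h1 h2) (π t) (π t')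
          (hPt t).unit (hPt t').unit (sX t) (sX t') (hsη t) (hsη t') (hψ t) (hψ t'))))
    (by
      rintro ⟨t, j⟩ d M hM g hg
      exact hasStage_of_pt hM (hPt t) (hTr t j) (hπ t) (hOV t j) (p t j) (hp0 t j)
        (σ := (σ t).comp (algebraMap O K)) (hπσ t) (hpW t j) (hW t j) hg.1 hg.2.1 hg.2.2)
  obtain ⟨g, hg, hg0⟩ := hM.ne
  obtain ⟨e, he, heη⟩ := mainAt y hy hM.pos hM.fg hM.le hM.comm hsep hηK hat g hg hg0
  have hpM : IsProper (modelMap M) := modelMap_isProper M hOF hM.fg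
  refine ⟨F, hF, inferInstance, inferInstance, hst, M, g, hg, hg0, e ≪≫ i.symm, hM.fg, ?_, ?_⟩
  · rw [← hif]
    change (e.hom ≫ i.inv) ≫ i.hom ≫ fP = _
    rw [← he]
    simp
  · intro t j
    have h := hPt t
    obtain ⟨g₁, ⟨hg₁, hg₁0, hMV⟩, hregC⟩ := hR ⟨t, j⟩
    obtain ⟨hMA, hfr⟩ := frac_chart (hTr t j) h.OA h.OL h.mem h.ne h.MA h.fr hM.pos hM.le hM.comm
      hg₁ hg₁0 hMV
    have hBA := chart_le_A h.OA hMA
    obtain ⟨jY, hjY, hjYU, hjYη⟩ := Pool.Agent.W398.GF.isChart M g₁ hg₁ hg₁0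
    have hss : sX t ≫ e.inv ≫ pullback.fst _ _ =
        Spec.map (CommRingCat.ofHom (Subring.inclusion hBA)) ≫ jY := by
      have hd : IsDominant (io (D t)) := ⟨io_dense (D t)⟩
      have h1 : io (D t) ≫ sX t ≫ e.inv ≫ pullback.fst _ _ =
          io (D t) ≫ Spec.map (CommRingCat.ofHom (Subring.inclusion hBA)) ≫ jY := by
        have h2 : io (D t) ≫ Spec.map (CommRingCat.ofHom (Subring.inclusion hBA)) ≫ jY =
            Pool.Agent.W398.GF.eta M g₁ hg₁ hg₁0 := by
          rw [← Category.assoc, ← hjYη]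
          congr 1
          change Spec.map _ ≫ Spec.map _ = Spec.map _
          rw [← Spec.map_comp]
          rfl
        rw [h2, ← Category.assoc, hsη t, heη]
        exact Pool.Agent.W398.GF.eta_eq M hg hg₁ hg0 hg₁0
      refine ext_of_isDominant_of_isSeparated (modelMap M) ?_ (io (D t)) h1
      apply io_mono
      have h2 := congrArg (fun m => m ≫ modelMap M) h1
      simp only [Category.assoc] at h2 ⊢
      exact h2
    obtain ⟨ζ, hζ, hr⟩ := extend_chart (hTr t j) (chart_le_V (hOV t j) hMV)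
      hBA hregC jY
    refine ⟨ζ, ?_, hr⟩
    rw [hζ]
    have h3 : X.fromSpecResidueField (x t) ≫ (e ≪≫ i.symm).inv ≫ pullback.fst (modelMap M)
        (Spec.map (CommRingCat.ofHom (algebraMap O K))) =
        (X.fromSpecResidueField (x t) ≫ i.hom) ≫ e.inv ≫ pullback.fst _ _ := by simp
    rw [h3, hψ t, Category.assoc]
    change _ = Spec.map _ ≫ sX t ≫ e.inv ≫ pullback.fst _ _
    rw [hss, ← Category.assoc, ← Spec.map_comp]
    rfl

end Pool.Agent.H413.RV
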