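import Pool.Graph.R_pool_sql_team_seeded_2aa45f1a.Q299.RM.Mod2

/-!
# Blowings-up of projective models which are local at the centre of a valuation

The models of a projective scheme are given by modules `M` of forms, see `Pool.Agent.TH188.ARC`.
-/

set_option autoImplicit false

namespace Pool.Agent.H413.RV

open Pool.Agent.W418.LU2 Pool.Agent.TH188.QS Pool.Agent.TH188.ARC Pool.Agent.H176.DT
  Pool.Agent.H918R2.Quad Pointwise

variable {O F : Type} [CommRing O] [Field F] [Algebra O F]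

/-- The element `g` generates `M V`. -/
def Gen (V : ValuationSubring F) (M : Submodule O F) (g : F) : Prop :=
  g ∈ M ∧ g ≠ 0 ∧ ∀ m ∈ M, m / g ∈ V

section gen

variable {V : ValuationSubring F} {M N : Submodule O F} {g g' y : F}

lemma Gen.exists (hOV : ∀ o, algebraMap O F o ∈ V) (hM : M.FG) (hne : ∃ g ∈ M, g ≠ 0) :
    ∃ g, Gen V M g := by
  obtain ⟨g₀, hg₀, hg₀0⟩ := hne
  obtain ⟨g, hg, hg0, hgV⟩ := exists_gen_max hOV hM hg₀ hg₀0
  exact ⟨g, hg, hg0, hgV⟩

lemma Gen.one (hOV : ∀ o, algebraMap O F o ∈ V) : Gen V (1 : Submodule O F) 1 := by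
  refine ⟨Submodule.one_le.1 le_rfl, one_ne_zero, fun m hm => ?_⟩
  obtain ⟨o, rfl⟩ := Submodule.mem_one.1 hm
  rw [div_one]
  exact hOV o

lemma Gen.mul (h : Gen V M g) (h' : Gen V N y) : Gen V (N * M) (y * g) := by
  refine ⟨Submodule.mul_mem_mul h'.1 h.1, mul_ne_zero h'.2.1 h.2.1, fun m hm => ?_⟩
  refine Submodule.mul_induction_on hm (fun a ha b hb => ?_) (fun a b ha hb => ?_)
  · rw [mul_div_mul_comm]
    exact V.mul_mem _ _ (h'.2.2 a ha) (h.2.2 b hb)
  · rw [add_div]
    exact V.add_mem _ _ ha hb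

lemma Gen.pow (hOV : ∀ o, algebraMap O F o ∈ V) (h : Gen V M g) (e : ℕ) :
    Gen V (M ^ e) (g ^ e) := by
  induction e with
  | zero =>
    rw [pow_zero, pow_zero]
    exact Gen.one hOV
  | succ e ih =>
    rw [pow_succ, pow_succ]
    exact h.mul ih

lemma Gen.of_le (h : Gen V M g) (hN : N ≤ M) (hg : g ∈ N) : Gen V N g :=
  ⟨hg, h.2.1, fun m hm => h.2.2 m (hN hm)⟩

/-- A generator is a unit times another. -/
lemma Gen.div (h : Gen V M g) (h' : Gen V M g') : g / g' ∈ V := h'.2.2 g h.1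

end gen

/-- The element `a` of `V` has a power in `p V`. -/
def CN (V : ValuationSubring F) (p a : F) : Prop := a ∈ V ∧ ∃ n : ℕ, a ^ n * p⁻¹ ∈ V

lemma CN.mul {V : ValuationSubring F} {p a b : F} (h : CN V p a) (hb : b ∈ V) :
    CN V p (a * b) := by
  obtain ⟨h1, n, h2⟩ := h
  refine ⟨V.mul_mem _ _ h1 hb, n, ?_⟩
  have h3 : (a * b) ^ n * p⁻¹ = a ^ n * p⁻¹ * b ^ n := by ring
  rw [h3]
  exact V.mul_mem _ _ h2 (pow_mem hb n)

/-- The centre of `V'` on the model `M` does not belong to the closure of the centre of the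
coarsening of `V` given by `p`: the form `s` of degree `e` vanishes there, but not at the centre
of `V'`. -/
def Sep (V : ValuationSubring F) (p : F) (V' : ValuationSubring F) (M : Submodule O F) : Prop :=
  ∃ (e : ℕ) (s g : F), Gen V' (M ^ e) s ∧ Gen V M g ∧ CN V p (s / g ^ e)

/-- The blowings-up keep the centres separated. -/
lemma Sep.blow {V : ValuationSubring F} {p : F} {V' : ValuationSubring F} {M N : Submodule O F}
    (hOV' : ∀ o, algebraMap O F o ∈ V') (h : Sep V p V' M) {y y' : F} (hy : Gen V N y)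
    (hy' : Gen V' N y') : Sep V p V' (N * M) := by
  obtain ⟨e, s, g, hs, hg, hc⟩ := h
  refine ⟨e, y' ^ e * s, y * g, ?_, hg.mul hy, ?_⟩
  · rw [mul_pow]
    exact hs.mul (hy'.pow hOV' e)
  · have h1 : y' ^ e * s / (y * g) ^ e = s / g ^ e * (y' / y) ^ e := by
      rw [mul_pow, div_pow, mul_div_mul_comm, mul_comm]
    rw [h1]
    exact hc.mul (pow_mem (hy.2.2 y' hy'.1) e)

/-- The invariants of the modules are kept by the blowings-up. -/
lemma cm_blow [IsDomain O] (hOF : Function.Injective (algebraMap O F)) {M₀ : Submodule O F}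
    {D : ℕ} {M N : Submodule O F} (hM : Cm M₀ D M) {d : ℕ} (hN : N.FG) (hNM : N ≤ M ^ d) {q : O}
    (hq : q ≠ 0) (hqN : ∀ z ∈ M ^ d, q • z ∈ N) : Cm M₀ (D * (d + 1)) (N * M) := by
  have hq0 : algebraMap O F q ≠ 0 := fun h => hq (hOF (by rw [h, map_zero]))
  refine ⟨Nat.mul_pos hM.pos (Nat.succ_pos d), hN.mul hM.fg, ?_, ?_, ?_⟩
  · rw [pow_mul]
    refine le_trans ?_ (pow_le_pow' hM.le _)
    rw [pow_succ]
    exact Submodule.mul_le.2 fun a ha b hb => Submodule.mul_mem_mul (hNM ha) hb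
  · intro y hy
    rw [pow_mul] at hy
    obtain ⟨s, hs0, hs⟩ := exists_smul_mem_pow' (fun z hz => hM.comm z hz) (d + 1) y hy
    refine ⟨q * s, mul_ne_zero hq hs0, ?_⟩
    rw [mul_smul]
    rw [pow_succ] at hs
    refine Submodule.mul_induction_on hs (fun a ha b hb => ?_) (fun a b ha hb => ?_)
    · rw [← smul_mul_assoc]
      exact Submodule.mul_mem_mul (hqN a ha) hb
    · rw [smul_add]
      exact Submodule.add_mem _ ha hb
  · obtain ⟨g, hg, hg0⟩ := hM.ne
    refine ⟨(q • g ^ d) * g, Submodule.mul_mem_mul (hqN _ (Submodule.pow_mem_pow M hg d)) hg, ?_⟩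
    rw [Algebra.smul_def]
    exact mul_ne_zero (mul_ne_zero hq0 (pow_ne_zero _ hg0)) hg0

/-- The local rings of the model `M` at the centre of `V` have the property `Φ`. -/
def Has (Φ : Subring F → Prop) (V : ValuationSubring F) (M : Submodule O F) : Prop :=
  ∃ g, Gen V M g ∧ Φ (lo V.toSubring (chart O M g).toSubring)

lemma Has.all {Φ : Subring F → Prop} {V : ValuationSubring F} {M : Submodule O F}
    (hOV : ∀ o, algebraMap O F o ∈ V) (h : Has Φ V M) {g : F} (hg : Gen V M g) :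
    Φ (lo V.toSubring (chart O M g).toSubring) := by
  obtain ⟨g', hg', h1⟩ := h
  rwa [lo_chart_eq hOV hg.1 hg.2.1 hg'.1 hg'.2.1 hg.2.2 hg'.2.2]

/-- The blowing-up is an isomorphism at the centre of `V`. -/
lemma Has.blow {Φ : Subring F → Prop} {V : ValuationSubring F} {M N : Submodule O F}
    (hOV : ∀ o, algebraMap O F o ∈ V) (h : Has Φ V M) {d : ℕ} (hNM : N ≤ M ^ d) {y : F}
    (hy : Gen V (M ^ d) y) (hyN : y ∈ N) : Has Φ V (N * M) := by
  obtain ⟨g, hg, h1⟩ := h
  have hyN' : Gen V N y := hy.of_le hNM hyN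
  refine ⟨y * g, hg.mul hyN', ?_⟩
  have hCV : (chart O M g).toSubring ≤ V.toSubring := chart_le_V hOV hg.2.2
  have hC'V : (chart O (N * M) (y * g)).toSubring ≤ V.toSubring :=
    chart_le_V hOV (hg.mul hyN').2.2
  have h2 : (chart O M g).toSubring ≤ (chart O (N * M) (y * g)).toSubring := by
    have : chart O M g ≤ chart O (N * M) (y * g) := Algebra.adjoin_le (by
      rintro _ ⟨m, hm, rfl⟩
      refine Algebra.subset_adjoin ⟨y * m, Submodule.mul_mem_mul hyN hm, ?_⟩
      rw [mul_div_mul_left _ _ hy.2.1])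
    exact this
  have hyC : y / g ^ d ∈ chart O M g := pow_div_mem hg.2.1 d y hy.1
  have hgd : g ^ d ≠ 0 := pow_ne_zero d hg.2.1
  have h3 : ∀ n ∈ N, n / y ∈ lo V.toSubring (chart O M g).toSubring := by
    intro n hn
    refine ⟨n / g ^ d, pow_div_mem hg.2.1 d n (hNM hn), y / g ^ d, hyC,
      div_ne_zero hy.2.1 hgd, ?_, ?_⟩
    · rw [inv_div]
      exact hy.2.2 _ (Submodule.pow_mem_pow M hg.1 d)
    · have := hy.2.1
      field_simp
  have h4 : (chart O (N * M) (y * g)).toSubring ≤ lo V.toSubring (chart O M g).toSubring := by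
    let C : Subalgebra O F := { lo V.toSubring (chart O M g).toSubring with
      algebraMap_mem' := fun o => le_lo _ _ (Subalgebra.algebraMap_mem (chart O M g) o) }
    have : chart O (N * M) (y * g) ≤ C := Algebra.adjoin_le (by
      rintro _ ⟨m, hm, rfl⟩
      refine Submodule.mul_induction_on hm (fun a ha b hb => ?_) (fun a b ha hb => ?_)
      · rw [mul_div_mul_comm]
        exact C.mul_mem (h3 a ha) (le_lo _ _ (Algebra.subset_adjoin ⟨b, hb, rfl⟩))
      · rw [add_div]
        exact C.add_mem ha hb)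
    exact this
  rwa [lo_eq hCV h2 h4]

end Pool.Agent.H413.RV
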