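import Pool.Agent.H413.RV.Step
import Pool.Graph.R_seed8.TH188.ARC.A21

/-!
# Regularity of the charts of other modules with the same generic fibre
-/

set_option autoImplicit false

namespace Pool.Agent.H413.RV

open Pool.Agent.W418.LU2 Pool.Agent.TH188.QS Pool.Agent.TH188.ARC Pool.Agent.H176.DT
  Pool.Agent.H918R2.Quad Pointwise

section dom

variable {F : Type} [Field F]

/-- The local ring of a subring at a prime ideal is dominated by a valuation ring. -/
lemma exists_dom (B : Subring F) (P : Ideal B) [P.IsPrime] :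
    ∃ V : ValuationSubring F, B ≤ V.toSubring ∧ ∀ b : B, b ∈ P ↔ V.valuation (b : F) < 1 := by
  obtain ⟨V, hV⟩ := (LocalSubring.ofPrime B P).exists_le_valuationSubring
  have hBV : B ≤ V.toSubring := (LocalSubring.le_ofPrime B P).trans hV.1
  refine ⟨V, hBV, fun b => ?_⟩
  have h1 : IsUnit (algebraMap B (LocalSubring.ofPrime B P).toSubring b) ↔ b ∉ P :=
    IsLocalization.AtPrime.isUnit_to_map_iff (LocalSubring.ofPrime B P).toSubring P b
  have h2 : IsLocalHom (Subring.inclusion hV.1) := hV.2
  have h3 : IsUnit (Subring.inclusion hV.1 (algebraMap B (LocalSubring.ofPrime B P).toSubring b)) ↔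
      IsUnit (algebraMap B (LocalSubring.ofPrime B P).toSubring b) :=
    isUnit_map_iff (Subring.inclusion hV.1) _
  have h4 : V.valuation (b : F) < 1 ↔ ¬ IsUnit (⟨(b : F), hBV b.2⟩ : V) := by
    rw [← mem_nonunits_iff, ← IsLocalRing.mem_maximalIdeal]
    exact (V.valuation_lt_one_iff ⟨(b : F), hBV b.2⟩).symm
  rw [h4, ← not_iff_not, not_not, ← h1, ← h3]
  rfl

/-- The local ring at the centre and the localization. -/
lemma lo_equiv {B : Subring F} {V : ValuationSubring F} (P : Ideal B)
    [P.IsPrime] (hP : ∀ b : B, b ∈ P ↔ V.valuation (b : F) < 1) :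
    Nonempty (Localization.AtPrime P ≃+* lo V.toSubring B) := by
  have hu : ∀ y : P.primeCompl, ((y : B) : F) ≠ 0 ∧ ((y : B) : F)⁻¹ ∈ V := by
    intro y
    have h1 : ¬ V.valuation ((y : B) : F) < 1 := fun h => y.2 ((hP _).2 h)
    have h0 : ((y : B) : F) ≠ 0 := by
      intro h
      apply h1
      rw [h, map_zero]; exact zero_lt_one
    refine ⟨h0, ?_⟩
    rw [val_lt_iff h0, not_not] at h1
    exact h1
  let ι : B →+* lo V.toSubring B := Subring.inclusion (le_lo V.toSubring B)
  have hι : ∀ y : P.primeCompl, IsUnit (ι y) := by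
    intro y
    refine isUnit_iff_exists_inv.2 ⟨⟨((y : B) : F)⁻¹, 1, B.one_mem, _, (y : B).2, (hu y).1,
      (hu y).2, by rw [one_mul]⟩, ?_⟩
    exact Subtype.ext (mul_inv_cancel₀ (hu y).1)
  let θ : Localization.AtPrime P →+* lo V.toSubring B :=
    IsLocalization.lift (M := P.primeCompl) hι
  have hθ : Function.Bijective θ := by
    refine ⟨?_, ?_⟩
    · rw [injective_iff_map_eq_zero]
      intro z hz
      obtain ⟨a, y, rfl⟩ := IsLocalization.exists_mk'_eq P.primeCompl z
      have h1 : ι a = ι y * 0 := (IsLocalization.lift_mk'_spec (S := Localization.AtPrime P)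
        (hg := hι) a 0 y).1 hz
      rw [mul_zero] at h1
      have h2 : a = 0 := Subtype.ext (congrArg (fun w : lo V.toSubring B => (w : F)) h1)
      rw [h2, IsLocalization.mk'_zero]
    · rintro ⟨_, a, ha, b, hb, hb0, hbi, rfl⟩
      have hbP : (⟨b, hb⟩ : B) ∈ P.primeCompl := by
        intro h
        have h1 : V.valuation b < 1 := (hP _).1 h
        exact (val_lt_iff hb0).1 h1 hbi
      refine ⟨IsLocalization.mk' _ (⟨a, ha⟩ : B) ⟨⟨b, hb⟩, hbP⟩, ?_⟩
      rw [IsLocalization.lift_mk'_spec]
      apply Subtype.ext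
      change a = b * (a * b⁻¹)
      field_simp
  exact ⟨RingEquiv.ofBijective θ hθ⟩

end dom

section ver

variable {K F : Type} [Field K] [Field F] [Algebra K F]

/-- The charts of the Veronese embedding. -/
lemma chart_pow {N : Submodule K F} {g : F} (hg : g ∈ N) (hg0 : g ≠ 0) {D : ℕ} (hD : 1 ≤ D) :
    chart K (N ^ D) (g ^ D) = chart K N g := by
  apply le_antisymm
  · refine Algebra.adjoin_le ?_
    rintro _ ⟨m, hm, rfl⟩
    exact pow_div_mem hg0 D m hm
  · refine Algebra.adjoin_le ?_
    rintro _ ⟨m, hm, rfl⟩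
    obtain ⟨e, rfl⟩ := Nat.exists_eq_add_of_le' hD
    refine Algebra.subset_adjoin ⟨g ^ e * m, ?_, ?_⟩
    · rw [pow_succ]
      exact Submodule.mul_mem_mul (Submodule.pow_mem_pow N hg e) hm
    · rw [pow_succ]
      have := pow_ne_zero e hg0
      field_simp

/-- The charts of a Veronese embedding are regular if the charts of the original embedding are
regular. -/
theorem reg_veronese {ι ι' : Type} [Fintype ι] (y : ι → F) (hy : ∀ i, y i ≠ 0)
    (hreg : ∀ (i : ι) (P : Ideal (Algebra.adjoin K (Set.range fun j => y j / y i)).toSubring)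
      [P.IsPrime], IsRegularLocalRing (Localization.AtPrime P)) {D : ℕ} (hD : 1 ≤ D)
    (y' : ι' → F) (hy' : ∀ i, y' i ≠ 0)
    (hyy : Submodule.span K (Set.range y') = Submodule.span K (Set.range y) ^ D) (i : ι')
    (P : Ideal (Algebra.adjoin K (Set.range fun j => y' j / y' i)).toSubring) [P.IsPrime] :
    IsRegularLocalRing (Localization.AtPrime P) := by
  classical
  set N : Submodule K F := Submodule.span K (Set.range y) with hN
  obtain ⟨V, hBV, hPV⟩ := exists_dom _ P
  have hKV : ∀ k : K, algebraMap K F k ∈ V := fun k => hBV (Subalgebra.algebraMap_mem _ k)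
  -- a generator
  have hG : Submodule.span K ((Finset.univ.image y : Finset F) : Set F) = N := by
    rw [Finset.coe_image, Finset.coe_univ, Set.image_univ]
  have hiN : y' i ∈ N ^ D := by
    rw [← hyy]
    exact Submodule.subset_span ⟨i, rfl⟩
  have hN0 : ∃ i₀ : ι, True := by
    by_contra h
    push Not at h
    have h1 : N = ⊥ := by
      rw [hN, Submodule.span_eq_bot]
      rintro _ ⟨j, rfl⟩
      exact (h j).elim
    rw [h1, Submodule.bot_pow (by omega)] at hiN
    exact hy' i ((Submodule.mem_bot K).1 hiN)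
  obtain ⟨i₀, -⟩ := hN0
  obtain ⟨j, hjG, hj0, hNV⟩ := exists_gen_max' hKV hG (g := y i₀) (Submodule.subset_span ⟨i₀, rfl⟩)
    (hy i₀)
  obtain ⟨k, -, rfl⟩ := Finset.mem_image.1 hjG
  have hkN : y k ∈ N := Submodule.subset_span ⟨k, rfl⟩
  have hgen : Gen V N (y k) := ⟨hkN, hj0, hNV⟩
  have hgenD := hgen.pow hKV D
  have h1 : chart K (N ^ D) (y' i) = Algebra.adjoin K (Set.range fun j => y' j / y' i) := by
    rw [← hyy]
    exact chart_span y' (y' i)
  have h2 : ∀ m ∈ N ^ D, m / y' i ∈ V := by
    intro m hm
    have h3 : m / y' i ∈ chart K (N ^ D) (y' i) := Algebra.subset_adjoin ⟨m, hm, rfl⟩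
    rw [h1] at h3
    exact hBV h3
  have h3 : lo V.toSubring (chart K (N ^ D) (y' i)).toSubring =
      lo V.toSubring (chart K (N ^ D) (y k ^ D)).toSubring :=
    lo_chart_eq hKV hiN (hy' i) hgenD.1 hgenD.2.1 h2 hgenD.2.2
  rw [h1, chart_pow hkN hj0 hD, hN, chart_span y (y k)] at h3
  -- the centre on the chart of `y k`
  have hCV : (Algebra.adjoin K (Set.range fun j => y j / y k)).toSubring ≤ V.toSubring := by
    have h4 := chart_le_V hKV hNV
    rw [hN, chart_span y (y k)] at h4
    exact h4
  let Q : Ideal (Algebra.adjoin K (Set.range fun j => y j / y k)).toSubring :=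
    (IsLocalRing.maximalIdeal V).comap (Subring.inclusion hCV)
  have hQp : Q.IsPrime := Ideal.IsPrime.comap _
  have hQ : ∀ b, b ∈ Q ↔ V.valuation (b : F) < 1 := by
    intro b
    change Subring.inclusion hCV b ∈ IsLocalRing.maximalIdeal V ↔ _
    exact V.valuation_lt_one_iff _
  have h5 := hreg k Q
  obtain ⟨e⟩ := lo_equiv Q hQ
  obtain ⟨e'⟩ := lo_equiv P hPV
  have h6 : IsRegularLocalRing (lo V.toSubring
      (Algebra.adjoin K (Set.range fun j => y j / y k)).toSubring) :=
    IsRegularLocalRing.of_ringEquiv e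
  rw [← h3] at h6
  exact IsRegularLocalRing.of_ringEquiv e'.symm

end ver

section span

variable {O K F : Type} [CommRing O] [Field K] [Algebra O K] [IsFractionRing O K]
  [Field F] [Algebra K F] [Algebra O F] [IsScalarTower O K F]

/-- The modules have the same span over `K`. -/
lemma span_eq_of_cm {ι ι' : Type} (y : ι → F) {D : ℕ} {M : Submodule O F}
    (hM : Cm (Submodule.span O (Set.range y)) D M) (y' : ι' → F)
    (hy' : Submodule.span O (Set.range y') = M) :
    Submodule.span K (Set.range y') = Submodule.span K (Set.range y) ^ D := by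
  have hOK : Function.Injective (algebraMap O K) := IsFractionRing.injective O K
  have hle : ∀ z ∈ (Submodule.span O (Set.range y)) ^ D, z ∈ Submodule.span K (Set.range y) ^ D := by
    intro z hz
    rw [Submodule.span_pow] at hz ⊢
    induction hz using Submodule.span_induction with
    | mem z hz => exact Submodule.subset_span hz
    | zero => exact Submodule.zero_mem _
    | add a b _ _ ha hb => exact Submodule.add_mem _ ha hb
    | smul c a _ ha =>
      rw [← algebraMap_smul K c a]
      exact Submodule.smul_mem _ _ ha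
  apply le_antisymm
  · rw [Submodule.span_le]
    rintro _ ⟨i, rfl⟩
    refine hle _ (hM.le ?_)
    rw [← hy']
    exact Submodule.subset_span ⟨i, rfl⟩
  · rw [Submodule.span_pow, Submodule.span_le]
    intro z hz
    have h1 : z ∈ (Submodule.span O (Set.range y)) ^ D := by
      rw [Submodule.span_pow]
      exact Submodule.subset_span hz
    obtain ⟨s, hs, hsz⟩ := hM.comm z h1
    have h2 : ∀ w ∈ M, w ∈ Submodule.span K (Set.range y') := by
      intro w hw
      rw [← hy'] at hw
      induction hw using Submodule.span_induction with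
      | mem z hz => exact Submodule.subset_span hz
      | zero => exact Submodule.zero_mem _
      | add a b _ _ ha hb => exact Submodule.add_mem _ ha hb
      | smul c a _ ha =>
        rw [← algebraMap_smul K c a]
        exact Submodule.smul_mem _ _ ha
    have h3 : z = (algebraMap O K s)⁻¹ • (s • z) := by
      rw [← algebraMap_smul K s z, smul_smul, inv_mul_cancel₀, one_smul]
      intro h
      exact hs (hOK (by rw [h, map_zero]))
    rw [h3]
    exact Submodule.smul_mem _ _ (h2 _ hsz)

end span

end Pool.Agent.H413.RV
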